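import Pool.Agent.H57.BG.Top
import Pool.Agent.H1.S3.Prz

/-!
# [H57 BG ALG] functionals on words and products of commutators (box lemma BLG, think 1715, mail 04:30)

`Lw`: a functional on the words of length `n + 2` with `Lw (z w) = Lw w - K z⁻¹ w`. `evs f c`: the value of `f` on the function `c`.
* `evs_qa`: `evs Lw (z c) = evs Lw c - evs (K z⁻¹) c`.
* `evs_wd`: `evs Lw` of a product of commutators `[h i, d i]`, `d i` with vanishing lower coefficients: `∑ i, evs (ζ i) (d i)`.
* `Cw w`: distinct indices, length `n + 2`, last index `0`.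
-/

set_option autoImplicit false

open scoped Classical commutatorElement

noncomputable section

namespace H57.BG

open H62.BL H1.S3

/-- distinct indices, length `n + 2`, last index `0` -/
def Cw {n : ℕ} {L : Type} (w : List (Lr (Fin (n + 2)) L)) : Prop :=
  (w.map Lr.i).Nodup ∧ w.length = n + 2 ∧ (w.map Lr.i).getLast? = some 0

variable {n : ℕ} {Q L R : Type} [Group Q] [MulAction Q L] [CommRing R]

theorem cw_act (z : Q) (w : List (Lr (Fin (n + 2)) L)) : Cw (w.map fun a => z • a) ↔ Cw w := by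
  have h1 : (w.map fun a : Lr (Fin (n + 2)) L => z • a).map Lr.i = w.map Lr.i := by
    rw [List.map_map]
    rfl
  unfold Cw
  rw [h1, List.length_map]

/-- the group of all words -/
abbrev UGr (R : Type) [CommRing R] (n : ℕ) (Q L : Type) [Group Q] [MulAction Q L] : Type :=
  UG Q (Lr (Fin (n + 2)) L) R (WN Q L Set.univ (n + 2))

variable [Fintype L]

/-- the value of a functional on words at a function -/
def evs (f c : List (Lr (Fin (n + 2)) L) → R) : R :=
  ∑ t : Fin (n + 2) → Lr (Fin (n + 2)) L, c (List.ofFn t) * f (List.ofFn t)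

omit [Fintype L] in
theorem map_ofFn_act (z : Q) {m : ℕ} (t : Fin m → Lr (Fin (n + 2)) L) :
    (List.ofFn t).map (fun a => z • a) = List.ofFn fun i => z • t i := by
  rw [List.map_ofFn]
  rfl

/-- the twisted equivariance -/
def Tw (Lw : List (Lr (Fin (n + 2)) L) → R) (K : Q → List (Lr (Fin (n + 2)) L) → R) : Prop :=
  ∀ (z : Q) w, Lw (w.map fun a => z • a) = Lw w - K z⁻¹ w

theorem evs_qa {Lw : List (Lr (Fin (n + 2)) L) → R} {K : Q → List (Lr (Fin (n + 2)) L) → R} (hT : Tw Lw K)
    (z : Q) (c : List (Lr (Fin (n + 2)) L) → R) : evs Lw (qa z c) = evs Lw c - evs (K z⁻¹) c := by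
  have h1 : evs Lw (qa z c) = ∑ t : Fin (n + 2) → Lr (Fin (n + 2)) L,
      c (List.ofFn t) * Lw ((List.ofFn t).map fun a => z • a) := by
    unfold evs
    rw [← (Equiv.arrowCongr (Equiv.refl (Fin (n + 2))) (MulAction.toPerm z)).sum_comp]
    refine Finset.sum_congr rfl fun t _ => ?_
    have h2 : (Equiv.arrowCongr (Equiv.refl (Fin (n + 2))) (MulAction.toPerm z)) t = fun i => z • t i := rfl
    rw [h2, map_ofFn_act, ← map_ofFn_act (n := n) z t]
    congr 1
    rw [qa, List.map_map]
    congr 1
    conv_rhs => rw [← List.map_id (List.ofFn t)]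
    refine List.map_congr_left fun a _ => ?_
    rw [Function.comp_apply, inv_smul_smul, id]
  rw [h1]
  unfold evs
  rw [← Finset.sum_sub_distrib]
  refine Finset.sum_congr rfl fun t _ => ?_
  rw [hT, mul_sub]

theorem evs_sub_left (f f' c : List (Lr (Fin (n + 2)) L) → R) :
    evs (f - f') c = evs f c - evs f' c := by
  unfold evs
  rw [← Finset.sum_sub_distrib]
  exact Finset.sum_congr rfl fun t _ => mul_sub _ _ _

theorem ofFn_ne {m : ℕ} {X : Type} (t : Fin (m + 1) → X) : List.ofFn t ≠ [] := by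
  intro h1
  have := congrArg List.length h1
  rw [List.length_ofFn, List.length_nil] at this
  omega

theorem evs_congr (f : List (Lr (Fin (n + 2)) L) → R) {c c' : List (Lr (Fin (n + 2)) L) → R}
    (h : ∀ u, u ≠ [] → u.length ≤ n + 2 → c u = c' u) : evs f c = evs f c' := by
  refine Finset.sum_congr rfl fun t _ => ?_
  rw [h _ (ofFn_ne t) (by rw [List.length_ofFn])]

theorem evs_add (f c c' : List (Lr (Fin (n + 2)) L) → R) :
    evs f (fun u => c u + c' u) = evs f c + evs f c' := by
  unfold evs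
  rw [← Finset.sum_add_distrib]
  exact Finset.sum_congr rfl fun t _ => add_mul _ _ _

theorem evs_sub (f c c' : List (Lr (Fin (n + 2)) L) → R) :
    evs f (fun u => c u - c' u) = evs f c - evs f c' := by
  unfold evs
  rw [← Finset.sum_sub_distrib]
  exact Finset.sum_congr rfl fun t _ => sub_mul _ _ _

theorem evs_smul (f : List (Lr (Fin (n + 2)) L) → R) (s : R) (c : List (Lr (Fin (n + 2)) L) → R) :
    evs f (fun u => s * c u) = s * evs f c := by
  unfold evs
  rw [Finset.mul_sum]
  exact Finset.sum_congr rfl fun t _ => mul_assoc _ _ _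

theorem evs_zero (f : List (Lr (Fin (n + 2)) L) → R) : evs f (fun _ => 0) = 0 := by
  unfold evs
  exact Finset.sum_eq_zero fun t _ => zero_mul _

theorem evs_list {J : Type} (f : List (Lr (Fin (n + 2)) L) → R) (c : J → List (Lr (Fin (n + 2)) L) → R)
    (l : List J) : evs f (fun u => (l.map fun j => c j u).sum) = (l.map fun j => evs f (c j)).sum := by
  induction l with
  | nil =>
    rw [List.map_nil, List.sum_nil]
    exact evs_zero f
  | cons j l ih =>
    rw [List.map_cons, List.sum_cons, ← ih, ← evs_add]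
    refine evs_congr f fun u _ _ => ?_
    rw [List.map_cons, List.sum_cons]

/-- `Lw` of a product of commutators -/
theorem evs_wd {Lw : List (Lr (Fin (n + 2)) L) → R} {K : Q → List (Lr (Fin (n + 2)) L) → R} (hT : Tw Lw K)
    {I : Type} (h y : I → Q) (d : I → UGr R n Q L) (l : List I) (hl : l.Nodup)
    (hd : ∀ i ∈ l, Et (n + 2) (d i) ∧ (d i).q = y i) :
    Et (n + 2) (wd (fun i => (qi (h i) : UGr R n Q L)) d l) ∧
      (wd (fun i => (qi (h i) : UGr R n Q L)) d l).q = wd h y l ∧
      evs Lw (wd (fun i => (qi (h i) : UGr R n Q L)) d l).c =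
        (l.map fun i => evs (zeta K h y l i) (d i).c).sum := by
  have key : ∀ l2 l1 : List I, l = l1 ++ l2 →
      Et (n + 2) (wd (fun i => (qi (h i) : UGr R n Q L)) d l2) ∧
      (wd (fun i => (qi (h i) : UGr R n Q L)) d l2).q = wd h y l2 ∧
      evs Lw (qa (wd h y l1) (wd (fun i => (qi (h i) : UGr R n Q L)) d l2).c) =
        (l2.map fun i => evs (zeta K h y l i) (d i).c).sum := by
    intro l2
    induction l2 with
    | nil =>
      intro l1 _
      refine ⟨et_one _, rfl, ?_⟩
      have h1 : (wd (fun i => (qi (h i) : UGr R n Q L)) d []).c = e1 := rfl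
      rw [h1, qa_e1, List.map_nil, List.sum_nil]
      refine Finset.sum_eq_zero fun t _ => ?_
      rw [e1, if_neg (ofFn_ne t), zero_mul]
    | cons i l2 ih =>
      intro l1 hl1
      obtain ⟨h1, h2, h3⟩ := ih (l1 ++ [i]) (by rw [hl1, List.append_assoc]; rfl)
      obtain ⟨hdi, hdq⟩ := hd i (by rw [hl1]; simp)
      obtain ⟨h4, h5, h6⟩ := et_com (h i) hdi
      rw [hdq] at h5 h6
      have hw : wd (fun i => (qi (h i) : UGr R n Q L)) d (i :: l2) =
          ⁅(qi (h i) : UGr R n Q L), d i⁆ * wd (fun i => (qi (h i) : UGr R n Q L)) d l2 := rfl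
      have hpre : pre l i = l1 := by
        rw [hl1]
        exact pre_append l1 l2 i (by rw [← hl1]; exact hl)
      rw [hw]
      refine ⟨et_mul h4 h1, by rw [ug_mul_q, h5, h2]; rfl, ?_⟩
      have e2 : evs Lw (qa (wd h y l1) (⁅(qi (h i) : UGr R n Q L), d i⁆ *
          wd (fun i => (qi (h i) : UGr R n Q L)) d l2).c) =
          evs Lw (qa (wd h y l1 * h i) (d i).c) - evs Lw (qa (wd h y l1 * ⁅h i, y i⁆) (d i).c) +
            evs Lw (qa (wd h y l1 * ⁅h i, y i⁆) (wd (fun i => (qi (h i) : UGr R n Q L)) d l2).c) := by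
        rw [← evs_sub, ← evs_add]
        refine evs_congr Lw fun u hu hlu => ?_
        simp only [qa_mul]
        have hu' : (u.map fun a => (wd h y l1)⁻¹ • a) ≠ [] := by simpa using hu
        have hlu' : (u.map fun a => (wd h y l1)⁻¹ • a).length ≤ n + 2 := by rw [List.length_map]; exact hlu
        have e3 := et_mul_c (wd (fun i => (qi (h i) : UGr R n Q L)) d l2) h4 _ hu' hlu'
        rw [h6 _ hu' hlu', h5] at e3
        exact e3
      have e4 : wd h y (l1 ++ [i]) = wd h y l1 * ⁅h i, y i⁆ := by rw [wd_append, wd_single]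
      have e5 : zeta K h y l i = K ((wd h y l1 * ⁅h i, y i⁆)⁻¹) - K ((wd h y l1 * h i)⁻¹) := by
        unfold zeta
        rw [hpre]
      rw [e4] at h3
      rw [e2, h3, evs_qa hT, evs_qa hT, List.map_cons, List.sum_cons, e5, evs_sub_left]
      ring
  have h1 := key l [] rfl
  have h2 : wd h y ([] : List I) = 1 := rfl
  rw [h2, qa_one] at h1
  exact h1

omit [Group Q] [MulAction Q L] [Fintype L] in
theorem cv_el_snoc {α : Type} (a b : α) (f : List α → R) (v : List α) :
    cv f (el a) (v ++ [b]) = if b = a then f v else 0 := by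
  by_cases h : b = a
  · rw [if_pos h, h]
    exact cv_el_right a f _ v rfl
  · rw [if_neg h, cv_eq]
    refine Finset.sum_eq_zero fun i _ => ?_
    have h1 : (el a ((v ++ [b]).drop i) : R) = 0 := by
      refine if_neg fun h2 => h ?_
      have h3 := List.take_append_drop i (v ++ [b])
      rw [h2] at h3
      have h4 := congrArg List.getLast? h3
      rw [List.getLast?_append, List.getLast?_append] at h4
      simpa using h4.symm
    rw [h1, mul_zero]

omit [Group Q] [MulAction Q L] [CommRing R] [Fintype L] in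
theorem ofFn_snoc {m : ℕ} {X : Type} (b : X) (t : Fin m → X) :
    List.ofFn ((Fin.snocEquiv (fun _ : Fin (m + 1) => X)) (b, t)) = List.ofFn t ++ [b] := by
  rw [List.ofFn_succ', List.concat_eq_append]
  simp [Fin.snocEquiv]

/-- the commutator of `1 + s a` and `x` -/
theorem evs_lt (Lw : List (Lr (Fin (n + 2)) L) → R) (a : Lr (Fin (n + 2)) L) (s : R) (x : UGr R n Q L)
    (hx : x.q • a = a) (h : ∀ u, u ≠ [] → u.length ≤ n → (∀ b ∈ u, b.i ≠ a.i) → x.c u = 0)
    (hLw : ∀ w, Lw w ≠ 0 → (w.map Lr.i).Nodup) :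
    evs Lw (⁅(lt a s : UGr R n Q L), x⁆).c =
      s * ∑ t : Fin (n + 1) → Lr (Fin (n + 2)) L, x.c (List.ofFn t) * (Lw (a :: List.ofFn t) - Lw (List.ofFn t ++ [a])) := by
  obtain ⟨-, -, h3⟩ := et_lt a s x hx h
  have e1 : evs Lw (⁅(lt a s : UGr R n Q L), x⁆).c =
      s * (evs Lw (cv (el a) x.c) - evs Lw (cv x.c (el a))) := by
    rw [← evs_sub, ← evs_smul]
    refine Finset.sum_congr rfl fun t _ => ?_
    by_cases h0 : Lw (List.ofFn t) = 0
    · rw [h0, mul_zero, mul_zero]
    · rw [h3 _ ⟨by rw [List.length_ofFn], hLw _ h0, fun _ _ => trivial⟩ (ofFn_ne t)]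
  have e2 : evs Lw (cv (el a) x.c) = ∑ t : Fin (n + 1) → Lr (Fin (n + 2)) L, x.c (List.ofFn t) * Lw (a :: List.ofFn t) := by
    unfold evs
    rw [← (Fin.consEquiv (fun _ : Fin (n + 2) => Lr (Fin (n + 2)) L)).sum_comp, Fintype.sum_prod_type,
      Finset.sum_eq_single a]
    · refine Finset.sum_congr rfl fun t _ => ?_
      have h1 : List.ofFn ((Fin.consEquiv (fun _ : Fin (n + 2) => Lr (Fin (n + 2)) L)) (a, t)) =
          a :: List.ofFn t := by
        rw [List.ofFn_succ]
        rfl
      rw [h1, cv_el_left]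
      simp only [if_pos]
    · intro b _ hb
      refine Finset.sum_eq_zero fun t _ => ?_
      have h1 : List.ofFn ((Fin.consEquiv (fun _ : Fin (n + 2) => Lr (Fin (n + 2)) L)) (b, t)) =
          b :: List.ofFn t := by
        rw [List.ofFn_succ]
        rfl
      rw [h1, cv_el_left]
      simp only [if_neg hb, zero_mul]
    · intro h1
      exact absurd (Finset.mem_univ _) h1
  have e3 : evs Lw (cv x.c (el a)) = ∑ t : Fin (n + 1) → Lr (Fin (n + 2)) L, x.c (List.ofFn t) * Lw (List.ofFn t ++ [a]) := by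
    unfold evs
    rw [← (Fin.snocEquiv (fun _ : Fin (n + 2) => Lr (Fin (n + 2)) L)).sum_comp, Fintype.sum_prod_type,
      Finset.sum_eq_single a]
    · refine Finset.sum_congr rfl fun t _ => ?_
      have h1 : List.ofFn ((Fin.snocEquiv (fun _ : Fin (n + 2) => Lr (Fin (n + 2)) L)) (a, t)) =
          List.ofFn t ++ [a] := by
        exact ofFn_snoc _ t
      rw [h1, cv_el_snoc, if_pos rfl]
    · intro b _ hb
      refine Finset.sum_eq_zero fun t _ => ?_
      have h1 : List.ofFn ((Fin.snocEquiv (fun _ : Fin (n + 2) => Lr (Fin (n + 2)) L)) (b, t)) =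
          List.ofFn t ++ [b] := by
        exact ofFn_snoc _ t
      rw [h1, cv_el_snoc, if_neg hb, zero_mul]
    · intro h1
      exact absurd (Finset.mem_univ _) h1
  rw [e1, e2, e3, ← Finset.sum_sub_distrib]
  congr 1
  exact Finset.sum_congr rfl fun t _ => by ring

end H57.BG
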