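import Pool.Agent.H57.BG.Alg
import Pool.Agent.H62.BM.TopE

/-!
# [H57 BG DUM] the top coefficient of the full cube

`top_full`: for `LG q (n + 1)` and the full cube of dimension `n + 2`: `χ (tp (n + 2) (cub z))` is the value at `rel z` of the functional `χ (rw w)` on the words of
length `n + 2` with last index `0`. From `top_lemma` with one more index which does not occur.
-/

set_option autoImplicit false

open scoped Classical

noncomputable section

namespace H57.BG

open H62.BL

section map

variable {Q R α β : Type} [Group Q] [MulAction Q α] [MulAction Q β] [CommRing R]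

omit [Group Q] [MulAction Q α] [MulAction Q β] in
theorem cv_map (f : α → β) (c c' : List β → R) (w : List α) :
    cv c c' (w.map f) = cv (fun u => c (u.map f)) (fun u => c' (u.map f)) w := by
  rw [cv_eq, cv_eq, List.length_map]
  refine Finset.sum_congr rfl fun i _ => ?_
  rw [List.map_take, List.map_drop]

omit [Group Q] [MulAction Q α] [MulAction Q β] in
theorem e1_map (f : α → β) (w : List α) : (e1 (w.map f) : R) = e1 w := by
  cases w <;> simp [e1]

/-- pull back along an equivariant map of letters -/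
def pbh {W : WSet Q α} {W' : WSet Q β} (f : α → β) (hf : ∀ (z : Q) a, f (z • a) = z • f a)
    (hW : ∀ w : List α, w.map f ∈ W'.s ↔ w ∈ W.s) : UG Q β R W' →* UG Q α R W where
  toFun x := ⟨x.q, fun w => x.c (w.map f), x.one, fun w hw => x.out _ fun h => hw ((hW w).1 h)⟩
  map_one' := by
    refine UG.ext rfl (funext fun w => ?_)
    exact e1_map f w
  map_mul' x y := by
    refine UG.ext rfl (funext fun w => ?_)
    change (x * y).c (w.map f) = tr W (cv (fun w => x.c (w.map f)) (qa x.q fun w => y.c (w.map f))) w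
    have h1 : (qa x.q fun w : List α => y.c (w.map f)) = fun w => qa x.q y.c (w.map f) := by
      funext w
      rw [qa, qa, List.map_map, List.map_map]
      congr 1
      exact List.map_congr_left fun a _ => hf _ _
    rw [h1, ug_mul_c]
    by_cases hw : w ∈ W.s
    · rw [tr_of hw, tr_of ((hW w).2 hw), cv_map]
    · rw [tr_out hw, tr_out fun h => hw ((hW w).1 h)]

end map

section top

variable {Gn P Q L : Type} [Group P] [Group Q] [MulAction Q L] [Fintype L] {q n : ℕ} [NeZero q]

/-- the letters with one more index -/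
def csl (a : Lr (Fin (n + 2)) L) : Lr (Fin (n + 3)) L := ⟨Fin.castSucc a.i, a.l⟩

omit [Fintype L] in
theorem csl_wn (m : ℕ) (w : List (Lr (Fin (n + 2)) L)) :
    w.map csl ∈ (WN Q L (Set.univ : Set (Fin (n + 3))) m).s ↔
      w ∈ (WN Q L (Set.univ : Set (Fin (n + 2))) m).s := by
  have h1 : (w.map csl).map Lr.i = (w.map Lr.i).map Fin.castSucc := by
    rw [List.map_map, List.map_map]
    rfl
  change (_ ∧ _ ∧ _) ↔ (_ ∧ _ ∧ _)
  rw [List.length_map, h1, List.nodup_map_iff (Fin.castSucc_injective _)]
  simp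

omit [Fintype L] in
theorem rel_csl {m : ℕ} (kd : Gn → Option (Fin (n + 2) × Bool)) (bs : Gn → Q) (lam : Fin (n + 2) → L)
    (lam' : Fin (n + 3) → L) (hl : ∀ j, lam' (Fin.castSucc j) = lam j) (z : FreeGroup Gn)
    (w : List (Lr (Fin (n + 2)) L)) :
    (rel (WN Q L Set.univ m) (fun x => (kd x).map fun y => (Fin.castSucc y.1, y.2)) bs lam' z :
      UG Q (Lr (Fin (n + 3)) L) (ZMod q) (WN Q L Set.univ m)).c (w.map csl) =
    (rel (WN Q L Set.univ m) kd bs lam z : UG Q (Lr (Fin (n + 2)) L) (ZMod q) (WN Q L Set.univ m)).c w := by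
  obtain ⟨ψ, hψ⟩ : ∃ ψ : UG Q (Lr (Fin (n + 3)) L) (ZMod q) (WN Q L Set.univ m) →*
      UG Q (Lr (Fin (n + 2)) L) (ZMod q) (WN Q L Set.univ m),
      ψ = pbh csl (fun _ _ => rfl) (csl_wn m) := ⟨_, rfl⟩
  have h1 : ψ.comp (rel (WN Q L Set.univ m) (fun x => (kd x).map fun y => (Fin.castSucc y.1, y.2)) bs lam') =
      rel (WN Q L Set.univ m) kd bs lam := by
    refine FreeGroup.ext_hom _ _ fun x => ?_
    rw [MonoidHom.comp_apply, rel_of, rel_of]
    rcases hk : kd x with _ | ⟨j, b⟩
    · simp only [Option.map_none]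
      rw [hψ]
      refine UG.ext rfl (funext fun w => ?_)
      exact e1_map csl w
    · simp only [Option.map_some]
      rw [hψ]
      refine UG.ext rfl (funext fun w => ?_)
      change tr (WN Q L Set.univ m) (e1 + (if b = true then 1 else -1) • el (⟨Fin.castSucc j, lam' (Fin.castSucc j)⟩ : Lr (Fin (n + 3)) L)) (w.map csl) =
        tr (WN Q L Set.univ m) (e1 + (if b = true then 1 else -1) • el (⟨j, lam j⟩ : Lr (Fin (n + 2)) L)) w
      have h2 : (e1 (w.map csl) : ZMod q) = e1 w := e1_map csl w
      have h3 : (el (⟨Fin.castSucc j, lam' (Fin.castSucc j)⟩ : Lr (Fin (n + 3)) L) (w.map csl) : ZMod q) =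
          el (⟨j, lam j⟩ : Lr (Fin (n + 2)) L) w := by
        unfold el
        rw [hl]
        congr 1
        rw [eq_iff_iff]
        constructor
        · intro h4
          cases w with
          | nil => simp at h4
          | cons a w =>
            rw [List.map_cons, List.cons.injEq, List.map_eq_nil_iff] at h4
            rw [h4.2, List.cons.injEq]
            refine ⟨?_, rfl⟩
            have h5 := h4.1
            unfold csl at h5
            rw [Lr.mk.injEq] at h5
            exact Lr.ext (Fin.castSucc_injective _ h5.1) h5.2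
        · rintro rfl
          rfl
      by_cases hw : w ∈ (WN Q L (Set.univ : Set (Fin (n + 2))) m).s
      · rw [tr_of hw, tr_of ((csl_wn m w).2 hw), Pi.add_apply, Pi.add_apply, Pi.smul_apply, Pi.smul_apply, h2, h3]
      · rw [tr_out hw, tr_out fun h => hw ((csl_wn m w).1 h)]
  have h2 := congrArg (fun f => (f z).c w) h1
  simp only [MonoidHom.comp_apply] at h2
  rw [← h2, hψ]
  rfl

theorem top_full (D : LG q (n + 1) P Q L) (kd : Gn → Option (Fin (n + 2) × Bool)) (bs : Gn → P)
    (g : Fin (n + 2) → P) (lam : Fin (n + 2) → L) (hg : ∀ j, g j * (D.s (lam j))⁻¹ ∈ D.f 2)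
    (z : FreeGroup Gn) (χ : P → ZMod q) (hχ : ∀ x ∈ D.f (n + 2), ∀ y ∈ D.f (n + 2), χ (x * y) = χ x + χ y) :
    χ (tp (n + 2) (cub kd bs g z)) =
      evs (fun w => if Cw w then χ (D.rw w) else 0)
        (rel (WN Q L Set.univ (n + 2)) kd (fun x => D.pi (bs x)) lam z : UGr (ZMod q) n Q L).c := by
  obtain ⟨kd', hkd'⟩ : ∃ kd' : Gn → Option (Fin (n + 3) × Bool),
    kd' = fun x => (kd x).map fun y => (Fin.castSucc y.1, y.2) := ⟨_, rfl⟩
  obtain ⟨g', hg'⟩ : ∃ g' : Fin (n + 3) → P, g' = Fin.snoc g (g 0) := ⟨_, rfl⟩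
  obtain ⟨lam', hlam'⟩ : ∃ lam' : Fin (n + 3) → L, lam' = Fin.snoc lam (lam 0) := ⟨_, rfl⟩
  have hgc : ∀ j : Fin (n + 2), g' (Fin.castSucc j) = g j := by
    intro j
    rw [hg']
    exact Fin.snoc_castSucc (α := fun _ => P) _ _ _
  have hlc : ∀ j : Fin (n + 2), lam' (Fin.castSucc j) = lam j := by
    intro j
    rw [hlam']
    exact Fin.snoc_castSucc (α := fun _ => L) _ _ _
  have hgg : ∀ j, g' j * (D.s (lam' j))⁻¹ ∈ D.f 2 := by
    intro j
    refine Fin.lastCases ?_ (fun j => ?_) j
    · have h1 : g' (Fin.last (n + 2)) = g 0 := by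
        rw [hg']
        exact Fin.snoc_last (α := fun _ => P) _ _
      have h2 : lam' (Fin.last (n + 2)) = lam 0 := by
        rw [hlam']
        exact Fin.snoc_last (α := fun _ => L) _ _
      rw [h1, h2]
      exact hg 0
    · rw [hgc, hlc]
      exact hg j
  have hins : ∀ (e : Fin (n + 2) → Bool) (j : Fin (n + 2)),
      ((Fin.last (n + 2)).insertNth false e : Fin (n + 3) → Bool) (Fin.castSucc j) = e j := by
    intro e j
    rw [← Fin.succAbove_last_apply, Fin.insertNth_apply_succAbove]
  have hcub : ∀ e : Fin (n + 2) → Bool,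
      cub kd' bs g' z ((Fin.last (n + 2)).insertNth false e) = cub kd bs g z e := by
    intro e
    obtain ⟨f1, hf1⟩ : ∃ f1 : FreeGroup Gn →* P,
      f1 = (Pi.evalMonoidHom (fun _ : Fin (n + 3) → Bool => P) ((Fin.last (n + 2)).insertNth false e)).comp
        (cub kd' bs g') := ⟨_, rfl⟩
    obtain ⟨f2, hf2⟩ : ∃ f2 : FreeGroup Gn →* P,
      f2 = (Pi.evalMonoidHom (fun _ : Fin (n + 2) → Bool => P) e).comp (cub kd bs g) := ⟨_, rfl⟩
    have h1 : f1 = f2 := by
      refine FreeGroup.ext_hom _ _ fun x => ?_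
      rw [hf1, hf2, MonoidHom.comp_apply, MonoidHom.comp_apply, Pi.evalMonoidHom_apply, Pi.evalMonoidHom_apply,
        cub, cub, FreeGroup.lift_apply_of, FreeGroup.lift_apply_of, hkd']
      rcases hk : kd x with _ | ⟨j, b⟩
      · simp only [hk, Option.map_none]
      · simp only [hk, Option.map_some]
        unfold fa
        rw [hins, hgc]
    have h2 := congrArg (fun f => f z) h1
    rw [hf1, hf2] at h2
    exact h2
  have key := H62.BM.top_lemma D kd' bs g' lam' hgg z (Fin.last (n + 2)) false χ hχ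
  have e2 : (fun e : Fin (n + 2) → Bool => cub kd' bs g' z ((Fin.last (n + 2)).insertNth false e)) = cub kd bs g z :=
    funext hcub
  rw [e2] at key
  rw [key]
  symm
  refine Fintype.sum_of_injective (fun t i => csl (t i)) ?_ _ _ ?_ ?_
  · intro t t' h
    funext i
    have h1 := congrFun h i
    unfold csl at h1
    rw [Lr.mk.injEq] at h1
    exact Lr.ext (Fin.castSucc_injective _ h1.1) h1.2
  · intro t ht
    refine if_neg ?_
    rintro ⟨h1, -⟩
    refine ht ⟨fun i => ⟨(t i).i.castPred (h1 i), (t i).l⟩, ?_⟩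
    funext i
    exact Lr.ext (Fin.castSucc_castPred (t i).i (h1 i)) rfl
  · intro t
    have h1 : ∀ i, (csl (t i) : Lr (Fin (n + 3)) L).i ≠ Fin.last (n + 2) := fun i => (Fin.castSucc_lt_last _).ne
    have h2 : (List.ofFn fun i => (csl (t i) : Lr (Fin (n + 3)) L)) = (List.ofFn t).map csl := by
      rw [List.map_ofFn]
      rfl
    have h3 : D.rw ((List.ofFn t).map csl) = D.rw (List.ofFn t) := by
      unfold LG.rw
      rw [List.map_map]
      rfl
    have h4 : ((csl (t (Fin.last (n + 1))) : Lr (Fin (n + 3)) L).i = (Fin.last (n + 2)).succAbove 0) ↔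
        (t (Fin.last (n + 1))).i = 0 := by
      rw [Fin.succAbove_last_apply]
      exact (Fin.castSucc_injective _).eq_iff
    have h5 : ((List.ofFn t).map Lr.i).getLast? = some (t (Fin.last (n + 1))).i := by
      rw [List.ofFn_succ', List.concat_eq_append, List.map_append, List.map_cons, List.map_nil,
        List.getLast?_append]
      rfl
    have h6 : (rel (WN Q L Set.univ (n + 2)) kd' (fun x => D.pi (bs x)) lam' z :
        UG Q (Lr (Fin (n + 3)) L) (ZMod q) (WN Q L Set.univ (n + 2))).c ((List.ofFn t).map csl) =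
        (rel (WN Q L Set.univ (n + 2)) kd (fun x => D.pi (bs x)) lam z : UGr (ZMod q) n Q L).c (List.ofFn t) := by
      rw [hkd']
      exact rel_csl kd _ lam lam' hlc z _
    beta_reduce
    rw [h2, h3]
    by_cases h7 : (List.ofFn t) ∈ (WN Q L (Set.univ : Set (Fin (n + 2))) (n + 2)).s
    · by_cases h8 : (t (Fin.last (n + 1))).i = 0
      · rw [if_pos (show Cw (List.ofFn t) from ⟨h7.2.1, by rw [List.length_ofFn], by rw [h5, h8]⟩),
          if_pos ⟨h1, h4.2 h8⟩]
        exact congrArg (· * χ (D.rw (List.ofFn t))) h6.symm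
      · rw [if_neg (fun h : Cw (List.ofFn t) => h8 (by
            have := h.2.2
            rw [h5] at this
            exact Option.some.inj this)), if_neg fun h => h8 (h4.1 h.2), mul_zero]
    · have h9 : (rel (WN Q L Set.univ (n + 2)) kd (fun x => D.pi (bs x)) lam z : UGr (ZMod q) n Q L).c (List.ofFn t) = 0 :=
        UG.out _ _ h7
      rw [h9, zero_mul]
      rw [h9] at h6
      split_ifs
      · symm
        exact mul_eq_zero_of_left h6 _
      · rfl

end top

end H57.BG
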