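import Pool.Agent.H57.BG.Phw
import Pool.Agent.H93.BY.Quo
import Pool.Agent.H42.BX.Lam
import Pool.Agent.H62.BL.Mz

/-!
# [H57 BG FAC] the faces of the cube, modulo `f (n + 2)`

`face_top`: `top_lemma` for the character `ch a` of `LGx` (trivial on `f (n + 2)`), by `LGx.D0`.
-/

set_option autoImplicit false

open scoped Classical

noncomputable section

namespace H57.BG

open H62.BL H93.BY

theorem tp_mapx {P P' : Type} [Group P] [Group P'] (φ : P →* P') : ∀ (m : ℕ) (x : (Fin m → Bool) → P),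
    tp m (fun e => φ (x e)) = φ (tp m x)
  | 0, _ => rfl
  | m + 1, x => by
    rw [tp, tp, ← tp_mapx φ m]
    congr 1
    funext e
    rw [Pi.mul_apply, Pi.mul_apply, Pi.inv_apply, Pi.inv_apply, map_mul, map_inv]
    rfl

theorem tp_in {P : Type} [Group P] (A : Subgroup P) : ∀ (m : ℕ) (x : (Fin m → Bool) → P), (∀ e, x e ∈ A) → tp m x ∈ A
  | 0, _, h => h _
  | m + 1, x, h => tp_in A m _ fun e => A.mul_mem (h _) (A.inv_mem (h _))

theorem tp_memx {P : Type} [Group P] (A : Subgroup P) (c : P) {m : ℕ} (x : (Fin (m + 1) → Bool) → P)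
    (h : ∀ e, x e * c⁻¹ ∈ A) : tp (m + 1) x ∈ A := by
  refine tp_in A m _ fun e => ?_
  have h1 := A.mul_mem (h (Fin.cons true e)) (A.inv_mem (h (Fin.cons false e)))
  rw [mul_inv_rev, inv_inv, ← mul_assoc, inv_mul_cancel_right] at h1
  exact h1

variable {q n : ℕ} {Gn P Qg Lm : Type} [Group P] [Group Qg] [MulAction Qg Lm] [Fintype Lm] [NeZero q]

omit [Fintype Lm] [NeZero q] in
theorem cub_pr (Dx : LGx q n P Qg Lm) (kd : Gn → Option (Fin (n + 2) × Bool)) (bs : Gn → P) (g : Fin (n + 2) → P)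
    (z : FreeGroup Gn) (e : Fin (n + 2) → Bool) :
    cub kd (fun x => Dx.pr (bs x)) (fun k => Dx.pr (g k)) z e = Dx.pr (cub kd bs g z e) := by
  obtain ⟨f1, hf1⟩ : ∃ f1 : FreeGroup Gn →* Dx.Pq,
    f1 = (Pi.evalMonoidHom (fun _ : Fin (n + 2) → Bool => Dx.Pq) e).comp
      (cub kd (fun x => Dx.pr (bs x)) (fun k => Dx.pr (g k))) := ⟨_, rfl⟩
  obtain ⟨f2, hf2⟩ : ∃ f2 : FreeGroup Gn →* Dx.Pq,
    f2 = Dx.pr.comp ((Pi.evalMonoidHom (fun _ : Fin (n + 2) → Bool => P) e).comp (cub kd bs g)) := ⟨_, rfl⟩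
  have h1 : f1 = f2 := by
    refine FreeGroup.ext_hom _ _ fun x => ?_
    rw [hf1, hf2, MonoidHom.comp_apply, MonoidHom.comp_apply, MonoidHom.comp_apply, Pi.evalMonoidHom_apply,
      Pi.evalMonoidHom_apply, cub, cub, FreeGroup.lift_apply_of, FreeGroup.lift_apply_of]
    rcases hk : kd x with _ | ⟨j, b⟩
    · rfl
    · unfold fa
      simp only
      split_ifs
      · rfl
      · rw [map_one]
  have h2 := congrArg (fun f => f z) h1
  rw [hf1, hf2] at h2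
  exact h2

theorem face_top (Dx : LGx q n P Qg Lm) (kd : Gn → Option (Fin (n + 2) × Bool)) (bs : Gn → P)
    (g : Fin (n + 2) → P) (lam : Fin (n + 2) → Lm) (hg : ∀ j, g j * (Dx.D.s (lam j))⁻¹ ∈ Dx.D.f 2)
    (z : FreeGroup Gn) (k : Fin (n + 2)) (b : Bool) (a : Lm) (hmem : tp (n + 1) (fun e => cub kd bs g z (k.insertNth b e)) ∈ Dx.D.f (n + 1)) :
    Dx.ch a (tp (n + 1) (fun e => cub kd bs g z (k.insertNth b e))) =
      ∑ t : Fin (n + 1) → Lr (Fin (n + 2)) Lm,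
        if (∀ i, (t i).i ≠ k) ∧ (t (Fin.last n)).i = k.succAbove 0 then
          (rel (WN Qg Lm Set.univ (n + 1)) kd (fun x => Dx.D.pi (bs x)) lam z :
            UG Qg _ (ZMod q) _).c (List.ofFn t) * Dx.ch a (Dx.D.rw (List.ofFn t)) else 0 := by
  obtain ⟨χ, hχd⟩ : ∃ χ : Dx.Pq → ZMod q, χ = fun ξ => Dx.ch a (Function.surjInv Dx.pr_sur ξ) := ⟨_, rfl⟩
  have hχ : ∀ x ∈ Dx.D.f (n + 1), χ (Dx.pr x) = Dx.ch a x := by
    intro x hx
    rw [hχd]
    have h1 : Dx.pr (Function.surjInv Dx.pr_sur (Dx.pr x)) = Dx.pr x := Function.surjInv_eq Dx.pr_sur _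
    rw [Dx.pr_eq] at h1
    have h2 : Function.surjInv Dx.pr_sur (Dx.pr x) = Function.surjInv Dx.pr_sur (Dx.pr x) * x⁻¹ * x := by group
    change Dx.ch a (Function.surjInv Dx.pr_sur (Dx.pr x)) = _
    rw [h2, Dx.ch_add a _ (Dx.D.fl.anti _ h1) x hx, Dx.ch_bot a _ h1, zero_add]
  have hadd : ∀ x ∈ Dx.D0.f (n + 1), ∀ y ∈ Dx.D0.f (n + 1), χ (x * y) = χ x + χ y := by
    rintro _ ⟨x, hx, rfl⟩ _ ⟨y, hy, rfl⟩
    rw [← map_mul, hχ _ (mul_mem hx hy), hχ x hx, hχ y hy, Dx.ch_add a x hx y hy]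
  have key := H62.BM.top_lemma Dx.D0 kd (fun x => Dx.pr (bs x)) (fun k => Dx.pr (g k)) lam
    (fun j => ⟨_, hg j, by rw [map_mul, map_inv]; rfl⟩) z k b χ hadd
  have h1 : (fun e : Fin (n + 1) → Bool => cub kd (fun x => Dx.pr (bs x)) (fun k => Dx.pr (g k)) z (k.insertNth b e)) =
      fun e => Dx.pr (cub kd bs g z (k.insertNth b e)) := funext fun e => cub_pr Dx kd bs g z _
  rw [h1, tp_mapx, hχ _ hmem] at key
  rw [key]
  refine Finset.sum_congr rfl fun t _ => ?_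
  have h2 : Dx.D0.rw (List.ofFn t) = Dx.pr (Dx.D.rw (List.ofFn t)) := by
    unfold LG.rw
    rw [rn_map, List.map_map]
    rfl
  have h3 : Dx.D.rw (List.ofFn t) ∈ Dx.D.f (n + 1) :=
    (H42.BX.rw_cg Dx.D 1 (List.ofFn t) n (by rw [List.length_ofFn])).2
  rw [h2, hχ _ h3]
  rfl

end H57.BG
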