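import Pool.Agent.H57.BG.Phx
import Pool.Agent.H93.BY.Asm
import Pool.Agent.H42.BX.Lgx

/-!
# [H57 BG PHB] the hypothesis (H3) of CORE for BLG

`phb`: `Phb y Dx r v` of H93/BY/Asm.
-/

set_option autoImplicit false

open scoped NumberField commutatorElement
open IsDedekindDomain
open scoped Classical

noncomputable section

namespace H57.BG

open H63.MA H38.BB H38.BG H57.PC H57.BRA H77.WD H77.WE H62.BL H93.BX H93.BY

variable {K : Type} [Field K] [NumberField K] {Ω : Type} [Field Ω] [Algebra K Ω]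
  {p : ℕ} {ζ : K} {D : RD0 K p ζ} {q n : ℕ} {J P Qg Lm : Type} [Group P] [Group Qg] [MulAction Qg Lm]
  {A : GS D Ω} {Q : DP K Ω}

theorem phb [IsAlgClosure K Ω] [Finite Qg] [Fintype Lm] [Fintype J] (hp : p.Prime) (hζ : IsPrimitiveRoot ζ p)
    {κ N : ℕ} {z : K} (y : Wy D A J) {B : H77.S3.SD D Q A} {jb : Fin A.g → J} {l : List (Pl K)} (hl : Rlk y B jb l)
    {Dx : LGx (p ^ κ) n P Qg Lm} (hy : y.Ok Q Dx.Pq Qg Lm κ n N z) (hQ : IsPGroup p Qg)
    (hM : Nat.card (UGr (ZMod (p ^ κ)) n Qg Lm) ≤ y.M) {r : Rd A J P Qg} {v : Vd n P Qg Lm}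
    (hr : ROx r y B jb Dx) (hv : VOx v Dx) : Phb y Dx r v := by
  intro q0 q1 h hq hF hc
  have hf := fqx_f y hv hF
  have hr0 := r0_ok hy.out hr
  have hs : (WN Qg Lm {i : Fin (n + 2) | i ≠ 0} (n + 1)).s ⊆ (WN Qg Lm Set.univ (n + 1)).s :=
    fun w hw => ⟨hw.1, hw.2.1, fun _ _ => trivial⟩
  have h1 : ∀ b : Bool, Dx.kbp (v.lam 0) (reld Dx.D0 (r0 Dx r) (v0 Dx v) (Fin.tail q0) (Fin.tail q1)
      (y.wv (if b then q1 0 else q0 0))).c =
      Dx.kp (v.lam 0) (relq Dx.D0 (r0 Dx r) (v0 Dx v) q0 q1 (y.wv (if b then q1 0 else q0 0))).c := by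
    intro b
    rw [← relq_trh (r0 Dx r) (v0 Dx v) hr0.one h hs]
    refine (H42.BX.kbp_tr Dx (v.lam 0) _).trans ?_
    exact H42.BX.kbp_rel Dx (v.lam 0) Set.univ (fun _ _ => trivial) _ _ _ _
      fun u hu hul hu0 => rq_q y Dx.D0 (r0 Dx r) (v0 Dx v) hr0.one h hc 0 b u hu hul hu0
  have h2 := h1 true
  have h3 := h1 false
  simp only [if_true, Bool.false_eq_true, if_false] at h2 h3
  rw [phx hp hζ y hl hy hQ hM hr hv h hq hc hf, h2, h3]

end H57.BG
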