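import Pool.Agent.H57.BG.Rel
import Pool.Agent.H57.BG.Dum
import Pool.Agent.H93.BY.Df

/-!
# [H57 BG PHW] words: restriction of `rel`, `zeta` pointwise, the terms of the variables (box lemma BLG)
-/

set_option autoImplicit false

open scoped Classical

noncomputable section

namespace H57.BG

open H62.BL H1.S3 H93.BY

section down

variable {Gn Q L R : Type} [Group Q] [MulAction Q L] [CommRing R] {N : ℕ}

theorem down_qi {α : Type} [MulAction Q α] {W W' : WSet Q α} (hs : W'.s ⊆ W.s) (x : Q) :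
    trh hs (qi x : UG Q α R W) = qi x := by
  refine UG.ext rfl ?_
  exact tr_e1

theorem down_lt {α : Type} [MulAction Q α] {W W' : WSet Q α} (hs : W'.s ⊆ W.s) (a : α) (s : R) :
    trh hs (lt a s : UG Q α R W) = lt a s := by
  refine UG.ext rfl ?_
  change tr W' (tr W (e1 + s • el a)) = tr W' (e1 + s • el a)
  funext w
  unfold tr
  split_ifs with h1 h2
  · rfl
  · exact absurd (hs h1) h2
  · rfl

theorem wn_sub {m m' : ℕ} (h : m ≤ m') :
    (WN Q L (Set.univ : Set (Fin N)) m).s ⊆ (WN Q L (Set.univ : Set (Fin N)) m').s :=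
  fun _ hw => ⟨hw.1.trans h, hw.2.1, hw.2.2⟩

/-- the restriction of `rel` to shorter words -/
theorem rel_down {m m' : ℕ} (h : m ≤ m') (kd : Gn → Option (Fin N × Bool)) (bs : Gn → Q) (lam : Fin N → L)
    (z : FreeGroup Gn) :
    (rel (WN Q L Set.univ m') kd bs lam z : UG Q (Lr (Fin N) L) R _).q =
      (rel (WN Q L Set.univ m) kd bs lam z : UG Q (Lr (Fin N) L) R _).q ∧
    ∀ w, w.length ≤ m → (rel (WN Q L Set.univ m') kd bs lam z : UG Q (Lr (Fin N) L) R _).c w =
      (rel (WN Q L Set.univ m) kd bs lam z : UG Q (Lr (Fin N) L) R _).c w := by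
  have h1 : (trh (wn_sub h)).comp (rel (WN Q L Set.univ m') kd bs lam) =
      (rel (WN Q L Set.univ m) kd bs lam : FreeGroup Gn →* UG Q (Lr (Fin N) L) R _) := by
    refine FreeGroup.ext_hom _ _ fun x => ?_
    rw [MonoidHom.comp_apply, rel_of, rel_of]
    rcases hk : kd x with _ | ⟨j, b⟩
    · exact down_qi _ _
    · exact down_lt _ _ _
  have h2 : trh (wn_sub h) (rel (WN Q L Set.univ m') kd bs lam z) =
      (rel (WN Q L Set.univ m) kd bs lam z : UG Q (Lr (Fin N) L) R _) := by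
    rw [← h1]
    rfl
  refine ⟨by rw [← h2]; rfl, fun w hw => ?_⟩
  rw [← h2]
  change _ = tr _ _ w
  by_cases hw' : w ∈ (WN Q L (Set.univ : Set (Fin N)) m).s
  · rw [tr_of hw']
  · rw [tr_out hw']
    exact UG.out _ _ fun h3 => hw' ⟨hw, h3.2.1, h3.2.2⟩

end down

section words

variable {q n : ℕ} {P Qg Lm : Type} [Group P] [Group Qg] [MulAction Qg Lm]

/-- the functional `K` on words -/
def Kz (Dx : LGx q n P Qg Lm) (z : Qg) (w : List (Lr (Fin (n + 2)) Lm)) : ZMod q :=
  if Cw w then Dx.ka z (Dx.D.rw w) else 0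

theorem zeta_kz (Dx : LGx q n P Qg Lm) {I : Type} (h y : I → Qg) (l : List I) (i : I) :
    zeta (Kz Dx) h y l i = fun w => if Cw w then zeta Dx.ka h y l i (Dx.D.rw w) else 0 := by
  funext w
  unfold zeta
  rw [Pi.sub_apply, Pi.sub_apply]
  unfold Kz
  split_ifs
  · rfl
  · rw [sub_zero]

theorem lam_nd (Dx : LGx q n P Qg Lm) (w : List (Lr (Fin (n + 2)) Lm)) (h : Dx.lam w ≠ 0) : Cw w := by
  cases w with
  | nil => exact absurd rfl h
  | cons a w =>
    by_contra hn
    refine h (if_neg fun h1 => hn ⟨h1.1, by rw [List.length_cons, h1.2.1], ?_⟩)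
    rw [List.map_cons, List.getLast?_cons, h1.2.2]
    rfl

theorem gl_ofFn (t : Fin (n + 1) → Lr (Fin (n + 2)) Lm) :
    ((List.ofFn t).map Lr.i).getLast? = some (t (Fin.last n)).i := by
  rw [List.ofFn_succ', List.concat_eq_append, List.map_append, List.map_cons, List.map_nil, List.getLast?_append]
  rfl

/-- the term of the variable `k` -/
theorem term_k (Dx : LGx q n P Qg Lm) (lam : Fin (n + 2) → Lm) (k : Fin (n + 2)) (c : ZMod q)
    (t : Fin (n + 1) → Lr (Fin (n + 2)) Lm) (hc : c ≠ 0 → ((List.ofFn t).map Lr.i).Nodup) :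
    (if (∀ i, (t i).i ≠ k) ∧ (t (Fin.last n)).i = k.succAbove 0 then c * Dx.ch (lam k) (Dx.D.rw (List.ofFn t)) else 0) -
      c * (Dx.lam (⟨k, lam k⟩ :: List.ofFn t) - Dx.lam (List.ofFn t ++ [⟨k, lam k⟩])) =
      if k = 0 then c * Dx.kw (lam 0) (List.ofFn t) else 0 := by
  by_cases h0 : c = 0
  · rw [h0]
    simp
  have hnd := hc h0
  have hmem : (∀ i, (t i).i ≠ k) ↔ ∀ b ∈ List.ofFn t, b.i ≠ k := (List.forall_mem_ofFn_iff (P := fun b : Lr (Fin (n + 2)) Lm => b.i ≠ k)).symm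
  have hndk : ∀ w : List (Lr (Fin (n + 2)) Lm), (w.map Lr.i).Nodup →
      ((((⟨k, lam k⟩ : Lr (Fin (n + 2)) Lm) :: w).map Lr.i).Nodup ↔ ∀ b ∈ w, b.i ≠ k) := by
    intro w hw
    rw [List.map_cons, List.nodup_cons]
    constructor
    · rintro ⟨h1, -⟩ b hb hbk
      exact h1 (List.mem_map.2 ⟨b, hb, hbk⟩)
    · intro h1
      refine ⟨fun h2 => ?_, hw⟩
      obtain ⟨b, hb, hbk⟩ := List.mem_map.1 h2
      exact h1 b hb hbk
  have hnds : ((List.ofFn t ++ [(⟨k, lam k⟩ : Lr (Fin (n + 2)) Lm)]).map Lr.i).Nodup ↔ ∀ b ∈ List.ofFn t, b.i ≠ k := by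
    rw [← hndk _ hnd]
    refine List.Perm.nodup_iff ?_
    refine List.Perm.map _ ?_
    exact List.perm_append_singleton _ _
  have hlast : ((List.ofFn t ++ [(⟨k, lam k⟩ : Lr (Fin (n + 2)) Lm)]).map Lr.i).getLast? = some k := by
    rw [List.map_append, List.map_cons, List.map_nil, List.getLast?_append]
    rfl
  by_cases hk : k = 0
  · subst hk
    rw [if_pos rfl]
    have h1 : Dx.lam (⟨0, lam 0⟩ :: List.ofFn t) = 0 := by
      refine if_neg ?_
      rintro ⟨h1, -, h2⟩
      rw [List.map_cons, List.nodup_cons] at h1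
      exact h1.1 (List.mem_of_getLast? h2)
    rw [h1]
    obtain ⟨a, t', ht, hl⟩ : ∃ (a : Lr (Fin (n + 2)) Lm) (t' : List (Lr (Fin (n + 2)) Lm)), List.ofFn t = a :: t' ∧ t'.length = n :=
      ⟨t 0, List.ofFn fun i => t (Fin.succ i), List.ofFn_succ, by rw [List.length_ofFn]⟩
    have hgl := gl_ofFn t
    rw [ht] at hnds hlast hmem hnd hgl ⊢
    have h2 : Dx.lam (a :: t' ++ [⟨0, lam 0⟩]) =
        if ∀ b ∈ a :: t', b.i ≠ 0 then Dx.ch a.l (Dx.D.rw (t' ++ [⟨0, lam 0⟩])) else 0 := by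
      change (if _ then _ else _) = _
      refine if_congr ?_ rfl rfl
      constructor
      · rintro ⟨h3, -⟩
        exact hnds.1 h3
      · intro h3
        refine ⟨hnds.2 h3, ?_, ?_⟩
        · change (t' ++ [_]).length = _
          rw [List.length_append, hl]
          rfl
        · change ((t' ++ [_]).map Lr.i).getLast? = _
          rw [List.map_append, List.map_cons, List.map_nil, List.getLast?_append]
          rfl
    have h3 : Dx.kw (lam 0) (a :: t') = if ∀ b ∈ a :: t', b.i ≠ 0 then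
        (if (t (Fin.last n)).i = 1 then Dx.ch (lam 0) (Dx.D.rw (a :: t')) else 0) +
          Dx.ch a.l (Dx.D.rw (t' ++ [⟨0, lam 0⟩])) else 0 := by
      change (if _ then _ else _) = _
      refine if_congr ?_ ?_ rfl
      · exact ⟨fun h4 => h4.2.2, fun h4 => ⟨hnd, hl, h4⟩⟩
      · congr 1
        refine if_congr ?_ rfl rfl
        rw [hgl]
        exact Option.some_inj
    rw [h2, h3]
    by_cases h4 : ∀ b ∈ a :: t', b.i ≠ 0
    · rw [if_pos h4, if_pos h4]
      by_cases h5 : (t (Fin.last n)).i = 1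
      · rw [if_pos ⟨hmem.2 h4, by rw [h5]; rfl⟩, if_pos h5]
        ring
      · rw [if_neg (fun h6 => h5 (by rw [h6.2]; rfl)), if_neg h5]
        ring
    · rw [if_neg h4, if_neg h4, if_neg fun h6 => h4 (hmem.1 h6.1)]
      ring
  · rw [if_neg hk]
    have h1 : Dx.lam (List.ofFn t ++ [⟨k, lam k⟩]) = 0 := by
      by_contra h2
      have h3 := (lam_nd Dx _ h2).2.2
      rw [hlast] at h3
      exact hk (Option.some.inj h3)
    have h2 : Dx.lam (⟨k, lam k⟩ :: List.ofFn t) =
        if (∀ i, (t i).i ≠ k) ∧ (t (Fin.last n)).i = k.succAbove 0 then Dx.ch (lam k) (Dx.D.rw (List.ofFn t)) else 0 := by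
      change (if _ then _ else _) = _
      refine if_congr ?_ rfl rfl
      rw [hndk _ hnd, hmem, gl_ofFn, Fin.succAbove_ne_zero_zero hk, List.length_ofFn]
      simp
    rw [h1, h2]
    split_ifs
    · ring
    · ring

end words

end H57.BG
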