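import Pool.Agent.H57.BG.Fac
import Pool.Agent.H93.BX.Phs

/-!
# [H57 BG PHX] the phase of a cube for BLG

`phx`: the product over a cube with equal cells is `|F|^(2^(n+2))` times `ep` of the difference of the values of `kp` at the relative words of the two primes of the variable `0`.
The proof uses the relation (R) (`Rlk`), no reciprocity.
-/

set_option autoImplicit false

open scoped NumberField commutatorElement
open IsDedekindDomain
open scoped Classical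

noncomputable section

namespace H57.BG

open H63.MA H38.BB H38.BG H57.PC H57.BRA H77.WD H77.WE H62.BL H93.BX H93.BY

section tw

variable {q n : ℕ} {P Qg Lm : Type} [Group P] [Group Qg] [MulAction Qg Lm]

/-- the data of H42/BX/Lam -/
def twx (Dx : LGx q n P Qg Lm) : H42.BX.Tw Dx.D where
  ka := Dx.ka
  ka_add := Dx.ka_add
  ka_mul z z' x hx u hu := by
    subst hx
    exact Dx.ka_mul x z' u hu
  ch := Dx.ch
  ch_add := Dx.ch_add
  ch_zero := Dx.ch_bot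
  ch_act := Dx.ch_act

theorem twl (Dx : LGx q n P Qg Lm) : Tw Dx.lam (Kz Dx) := by
  have hL : ∀ w, (twx Dx).Lam w = Dx.lam w := by
    intro w
    cases w <;> rfl
  intro z w
  rw [← hL, ← hL, (twx Dx).lam_act z w]
  congr 1
  unfold Kz
  exact if_congr Iff.rfl rfl rfl

theorem ka_bot (Dx : LGx q n P Qg Lm) {I : Type} (h y : I → Qg) (l : List I) (i : I) :
    ∀ x ∈ Dx.D.f (n + 2), ∀ u ∈ Dx.D.f (n + 2),
      H1.S3.zeta Dx.ka h y l i (x * u) = H1.S3.zeta Dx.ka h y l i x + H1.S3.zeta Dx.ka h y l i u := by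
  intro x hx u hu
  unfold H1.S3.zeta
  rw [Pi.sub_apply, Pi.sub_apply, Pi.sub_apply, Dx.ka_add _ x hx u hu, Dx.ka_add _ x hx u hu]
  ring

end tw

variable {K : Type} [Field K] [NumberField K] {Ω : Type} [Field Ω] [Algebra K Ω]
  {p : ℕ} {ζ : K} {D : RD0 K p ζ} {q n : ℕ} {J P Qg Lm : Type} [Group P] [Group Qg] [MulAction Qg Lm]
  {A : GS D Ω} {Q : DP K Ω}

/-- the functional of the fixed word `j` -/
def zj (Dx : LGx q n P Qg Lm) (B : H77.S3.SD D Q A) (jb : Fin A.g → J) (phi : Gal(Ω/K) →* Qg) (j : J) :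
    P → ZMod q := if h : ∃ i, jb i = j then zta Dx B phi h.choose else 0

theorem zj_jb (Dx : LGx q n P Qg Lm) (B : H77.S3.SD D Q A) {jb : Fin A.g → J} (hjb : Function.Injective jb)
    (phi : Gal(Ω/K) →* Qg) (i : Fin A.g) : zj Dx B jb phi (jb i) = zta Dx B phi i := by
  have h : ∃ i', jb i' = jb i := ⟨i, rfl⟩
  unfold zj
  rw [dif_pos h, hjb h.choose_spec]

theorem zj_no (Dx : LGx q n P Qg Lm) (B : H77.S3.SD D Q A) {jb : Fin A.g → J}
    (phi : Gal(Ω/K) →* Qg) {j : J} (h : ∀ i, j ≠ jb i) : zj Dx B jb phi j = 0 := by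
  unfold zj
  rw [dif_neg]
  rintro ⟨i, hi⟩
  exact h i hi.symm

/-- the summand on a cell -/
theorem fq_cellx [Fintype J] [NeZero q] {y : Wy D A J} {B : H77.S3.SD D Q A} {jb : Fin A.g → J}
    (hjb : Function.Injective jb) {Dx : LGx q n P Qg Lm} {r : Rd A J P Qg} {v : Vd n P Qg Lm}
    (hr : ROx r y B jb Dx) (hv : VOx v Dx) {x x1 : Fin (n + 2) → Pl K} (hx : Adm r.T x) (hx1 : Adm r.T x1)
    (hT : ∀ w ∈ r.T, thq r v x (y.wv w) * (thq r v x1 (y.wv w))⁻¹ ∈ Dx.D.f (n + 2))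
    (hJ : ∀ j, thq r v x (y.wj j) * (thq r v x1 (y.wj j))⁻¹ ∈ Dx.D.f (n + 2))
    (hK : ∀ k, thq r v x (y.wv (x k)) * (thq r v x1 (y.wv (x1 k)))⁻¹ ∈ Dx.D.f (n + 1)) :
    Fq y r v x = Fq y r v x1 *
      ep q (∑ w ∈ r.T, ztv Dx y r.phi w (thq r v x (y.wv w) * (thq r v x1 (y.wv w))⁻¹) +
        ∑ j, zj Dx B jb r.phi j (thq r v x (y.wj j) * (thq r v x1 (y.wj j))⁻¹) +
        ∑ k, Dx.ch (v.lam k) (thq r v x (y.wv (x k)) * (thq r v x1 (y.wv (x1 k)))⁻¹)) := by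
  have h1 : ∏ w ∈ r.T, r.G w (thq r v x (y.wv w)) = (∏ w ∈ r.T, r.G w (thq r v x1 (y.wv w))) *
      ep q (∑ w ∈ r.T, ztv Dx y r.phi w (thq r v x (y.wv w) * (thq r v x1 (y.wv w))⁻¹)) := by
    rw [← ph_prod, ← Finset.prod_mul_distrib]
    refine Finset.prod_congr rfl fun w hw => ?_
    have h2 := hr.Gz w hw _ (hT w hw) (thq r v x1 (y.wv w))
    rw [inv_mul_cancel_right] at h2
    rw [h2, mul_comm]
  have h2 : ∏ j, r.H j (thq r v x (y.wj j)) = (∏ j, r.H j (thq r v x1 (y.wj j))) *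
      ep q (∑ j, zj Dx B jb r.phi j (thq r v x (y.wj j) * (thq r v x1 (y.wj j))⁻¹)) := by
    rw [← ph_prod, ← Finset.prod_mul_distrib]
    refine Finset.prod_congr rfl fun j _ => ?_
    by_cases h : ∃ i, jb i = j
    · obtain ⟨i, rfl⟩ := h
      have h2 := hr.Hz i _ (hJ (jb i)) (thq r v x1 (y.wj (jb i)))
      rw [inv_mul_cancel_right] at h2
      rw [h2, zj_jb Dx B hjb, mul_comm]
    · have h' : ∀ i, j ≠ jb i := fun i hi => h ⟨i, hi.symm⟩
      have h2 := hr.Hn j h' _ (hJ j) (thq r v x1 (y.wj j))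
      rw [inv_mul_cancel_right] at h2
      rw [h2, zj_no Dx B r.phi h', Pi.zero_apply, ep_zero, mul_one]
  have h3 : ∏ k, v.G k (thq r v x (y.wv (x k))) = (∏ k, v.G k (thq r v x1 (y.wv (x1 k)))) *
      ep q (∑ k, Dx.ch (v.lam k) (thq r v x (y.wv (x k)) * (thq r v x1 (y.wv (x1 k)))⁻¹)) := by
    rw [← ph_prod, ← Finset.prod_mul_distrib]
    refine Finset.prod_congr rfl fun k _ => ?_
    have h2 := hv.eq k _ (hK k) (thq r v x1 (y.wv (x1 k)))
    rw [inv_mul_cancel_right] at h2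
    rw [h2, mul_comm]
  unfold H93.BX.Fq
  rw [if_pos hx, if_pos hx1, h1, h2, h3, ep_addo, ep_addo]
  ring

theorem fin_ugr {o : ℕ} [NeZero o] [Finite Qg] [Finite Lm] : Finite (UGr (ZMod o) n Qg Lm) :=
  ug_finite (wn_finite _ _)

theorem pg_ugr [Finite Qg] [Finite Lm] (hp : p.Prime) (hQ : IsPGroup p Qg) (κ : ℕ) :
    IsPGroup p (UGr (ZMod (p ^ κ)) n Qg Lm) := by
  have hF : Fact p.Prime := ⟨hp⟩
  have hne : NeZero (p ^ κ) := ⟨pow_ne_zero κ hp.ne_zero⟩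
  obtain ⟨k, hk⟩ := IsPGroup.iff_card.1 hQ
  refine IsPGroup.of_card (n := k + κ * (Nat.card (WN Qg Lm (Set.univ : Set (Fin (n + 2))) (n + 2)).s - 1)) ?_
  rw [ug_card (wn_finite _ (n + 2)), hk, ← pow_mul, pow_add]

theorem phx [IsAlgClosure K Ω] [Finite Qg] [Fintype Lm] [Fintype J] (hp : p.Prime) (hζ : IsPrimitiveRoot ζ p) {κ N : ℕ} {z : K}
    (y : Wy D A J) {B : H77.S3.SD D Q A} {jb : Fin A.g → J} {l : List (Pl K)} (hl : Rlk y B jb l)
    {Dx : LGx (p ^ κ) n P Qg Lm} (hy : y.Ok Q Dx.Pq Qg Lm κ n N z) (hQ : IsPGroup p Qg)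
    (hM : Nat.card (UGr (ZMod (p ^ κ)) n Qg Lm) ≤ y.M) {r : Rd A J P Qg} {v : Vd n P Qg Lm}
    (hr : ROx r y B jb Dx) (hv : VOx v Dx) {q0 q1 : Fin (n + 2) → Pl K} (h : ND r.T q0 q1)
    (hq : ∀ k, q0 k ∈ y.Z ∧ q1 k ∈ y.Z)
    (hc : ∀ e : Fin (n + 2) → Bool, cel y Dx.D0 (r0 Dx r) (v0 Dx v) (vt q0 q1 e) =
      cel y Dx.D0 (r0 Dx r) (v0 Dx v) q1)
    (hf : ∀ k, Dx.D0.pi (thq (r0 Dx r) (v0 Dx v) q1 (y.wv (q1 k))) = v.f k) :
    ∏ e : Fin (n + 2) → Bool, cj e (Fq y r v (vt q0 q1 e)) = ((‖Fq y r v q1‖ ^ (2 ^ (n + 2)) : ℝ) : ℂ) *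
      ep (p ^ κ) (Dx.kp (v.lam 0) (relq Dx.D0 (r0 Dx r) (v0 Dx v) q0 q1 (y.wv (q1 0))).c -
        Dx.kp (v.lam 0) (relq Dx.D0 (r0 Dx r) (v0 Dx v) q0 q1 (y.wv (q0 0))).c) := by
  have hne : NeZero (p ^ κ) := ⟨pow_ne_zero κ hp.ne_zero⟩
  have hr0 := r0_ok hy.out hr
  have hv0 := v0_ok hv
  obtain ⟨z, hz'⟩ : ∃ z : Fin (n + 2) → Bool → FW A, z = fun k b => y.wv (if b then q1 k else q0 k) := ⟨_, rfl⟩
  obtain ⟨c, hc'⟩ : ∃ c : Fin (n + 2) → P, c = fun k => thq r v q1 (y.wv (q1 k)) := ⟨_, rfl⟩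
  obtain ⟨θ, hθ⟩ : ∃ θ : FW A →* UGr (ZMod (p ^ κ)) n Qg Lm,
    θ = rel (WN Qg Lm Set.univ (n + 2)) (kdq A id q0 q1) (fun x => Dx.D.pi (r.bs x)) v.lam := ⟨_, rfl⟩
  obtain ⟨W, hW⟩ : ∃ W : FW A →* UGm (p ^ κ) n Qg Lm, W = relq Dx.D0 (r0 Dx r) (v0 Dx v) q0 q1 := ⟨_, rfl⟩
  have hWr : W = rel (WN Qg Lm Set.univ (n + 1)) (kdq A id q0 q1) (fun x => Dx.D.pi (r.bs x)) v.lam := by
    rw [hW]
    unfold H93.BX.relq
    congr 1
    funext x
    rcases x with w | i <;> rfl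
  have hdq : ∀ x, (θ x).q = (W x).q := fun x => by
    rw [hθ, hWr]
    exact (rel_down (by omega) _ _ _ x).1
  have hdc : ∀ x (u : List (Lr (Fin (n + 2)) Lm)), u.length ≤ n + 1 → (θ x).c u = (W x).c u := fun x u hu => by
    rw [hθ, hWr]
    exact (rel_down (by omega) _ _ _ x).2 u hu
  obtain ⟨k', -, -, hkN, hMk⟩ := hy.rts.k
  have hphi : Unz y.L y.Z r.phi := ⟨hr.hon.1, fun v hv hz => hr.hon.2 v hv fun h => hz (hr.sub h)⟩
  have hWq : ∀ x, (W x).q = hat y.L A r.phi x := fun x => by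
    rw [hW]
    exact relq_q hr0 (v0 Dx v) h x
  have hvalv : ∀ w ∈ y.Z, hat y.L A r.phi (y.wv w) = r.phi (y.Fr.F w) := hy.val.v Qg hQ hy.cQ r.phi hphi
  have hvalj : ∀ j, hat y.L A r.phi (y.wj j) = r.phi (y.sj j) := hy.val.j Qg hQ hy.cQ r.phi hphi
  have hX : ∀ w ∈ r.T, Et (n + 2) (θ (y.wv w)) ∧ (θ (y.wv w)).q = r.phi (y.Fr.F w) := by
    intro w hw
    refine ⟨fun u hu hul => ?_, ?_⟩
    · rw [hdc _ u (by omega), hW]
      exact rq_T y Dx.D0 (r0 Dx r) (v0 Dx v) hr0.one h hc w hw u hu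
    · rw [hdq, hWq, hvalv w (hr.sub hw)]
  have hY : ∀ i, Et (n + 2) (θ (y.wj (jb i))) ∧ (θ (y.wj (jb i))).q = r.phi (B.b i) := by
    intro i
    refine ⟨fun u hu hul => ?_, ?_⟩
    · rw [hdc _ u (by omega), hW]
      exact rq_J y Dx.D0 (r0 Dx r) (v0 Dx v) hr0.one h hc (jb i) u hu
    · rw [hdq, hWq, hvalj, hl.sj]
  have hcom : ∀ w ∈ r.T, ⁅r.phi (y.L.t w), r.phi (y.Fr.F w)⁆ = 1 := by
    intro w hw
    have h1 := frm_card hp hζ hy.rts.hz y.Fr (hy.out w (hr.sub hw)) hQ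
      ((hy.cQ.trans hMk).trans (Nat.pow_le_pow_right hp.pos (by omega))) r.phi hr.hon.1
    exact commutatorElement_eq_one_iff_mul_comm.2 h1.symm
  have hblk : ∀ w ∈ D.S0, H77.S3.blk B.pl w (fun i => r.phi (A.a i)) (fun i => r.phi (B.b i)) = 1 :=
    hl.loc Qg hQ hy.cQ r.phi hr.hon.1
  have hvk : ∀ (k : Fin (n + 2)) (w : Pl K), (w = q0 k ∨ w = q1 k) →
      (θ (y.wv w)).q • (⟨k, v.lam k⟩ : Lr (Fin (n + 2)) Lm) = ⟨k, v.lam k⟩ ∧
      ∀ u, u ≠ [] → u.length ≤ n → (∀ b ∈ u, b.i ≠ k) → (θ (y.wv w)).c u = 0 := by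
    intro k w hw
    obtain ⟨b, hb⟩ : ∃ b : Bool, w = if b then q1 k else q0 k := by
      rcases hw with rfl | rfl
      · exact ⟨false, rfl⟩
      · exact ⟨true, rfl⟩
    rw [hb]
    refine ⟨?_, fun u hu hul huk => ?_⟩
    · rw [hdq, hW]
      have h1 := rq_fix y hr0 hv0 h hc hf k b
      rw [h1]
      change (⟨k, v.f k • v.lam k⟩ : Lr (Fin (n + 2)) Lm) = _
      rw [hv.f]
    · rw [hdc _ u (by omega), hW]
      exact rq_q y Dx.D0 (r0 Dx r) (v0 Dx v) hr0.one h hc k b u hu hul huk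
  have hLw : ∀ w, Dx.lam w ≠ 0 → (w.map Lr.i).Nodup := fun w hw => (lam_nd Dx w hw).1
  have hcard : Finite (UGr (ZMod (p ^ κ)) n Qg Lm) := fin_ugr
  have key1 := rel_id (B := B) (X := y.wv) (Y := fun i => y.wj (jb i)) hl.nd hl.mem hy.out r.phi hr.sub
    (fun w hw => by rw [hr.lab, hr.one w hw, map_one]) hq h v.lam (fun x => Dx.D.pi (r.bs x))
    (fun w => (hr.lab w).symm) (fun i => (hr.al i).symm) θ hθ
    (fun h1 => hl.rl (UGr (ZMod (p ^ κ)) n Qg Lm) (pg_ugr hp hQ κ) hM θ h1)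
    (fun w => r.phi (y.Fr.F w)) (fun i => r.phi (B.b i)) hX hcom hY hblk hvk (twl Dx) hLw
  -- the vertices
  have hcub : ∀ (x : FW A) (e : Fin (n + 2) → Bool), cub (kdq A id q0 q1) r.bs v.g x e = thq r v (vt q0 q1 e) x :=
    fun x e => cub_th r v hr.one h x e
  have hTe : ∀ e, ∀ w ∈ r.T, cub (kdq A id q0 q1) r.bs v.g (y.wv w) e * (thq r v q1 (y.wv w))⁻¹ ∈ Dx.D.f (n + 2) := by
    intro e w hw
    rw [hcub]
    exact cel0_T y Dx r v (hc e) w hw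
  have hJe : ∀ e j, cub (kdq A id q0 q1) r.bs v.g (y.wj j) e * (thq r v q1 (y.wj j))⁻¹ ∈ Dx.D.f (n + 2) := by
    intro e j
    rw [hcub]
    exact cel0_J y Dx r v (hc e) j
  have hKe : ∀ (k : Fin (n + 2)) (b : Bool) (e' : Fin (n + 1) → Bool),
      cub (kdq A id q0 q1) r.bs v.g (z k b) (k.insertNth b e') * (c k)⁻¹ ∈ Dx.D.f (n + 1) := by
    intro k b e'
    have h2 := cel0_q y Dx r v (hc (k.insertNth b e')) k
    have h3 : vt q0 q1 (k.insertNth b e') k = if b then q1 k else q0 k := by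
      unfold vt
      rw [Fin.insertNth_apply_same]
    rw [h3] at h2
    rw [hcub, hz', hc']
    exact h2
  have h1 : ∀ e : Fin (n + 2) → Bool, cj e (Fq y r v (vt q0 q1 e)) = cj e (Fq y r v q1) *
      ep (p ^ κ) (sg (ZMod (p ^ κ)) e * (
        ∑ w ∈ r.T, ztv Dx y r.phi w (cub (kdq A id q0 q1) r.bs v.g (y.wv w) e * (thq r v q1 (y.wv w))⁻¹) +
        ∑ j, zj Dx B jb r.phi j (cub (kdq A id q0 q1) r.bs v.g (y.wj j) e * (thq r v q1 (y.wj j))⁻¹) +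
        ∑ k, Dx.ch (v.lam k) (cub (kdq A id q0 q1) r.bs v.g (z k (e k)) e * (c k)⁻¹))) := by
    intro e
    have h5 : ∑ k, Dx.ch (v.lam k) (thq r v (vt q0 q1 e) (y.wv (vt q0 q1 e k)) *
        (thq r v q1 (y.wv (q1 k)))⁻¹) =
        ∑ k, Dx.ch (v.lam k) (cub (kdq A id q0 q1) r.bs v.g (z k (e k)) e * (c k)⁻¹) := by
      refine Finset.sum_congr rfl fun k _ => ?_
      rw [hcub, hz', hc']
      rfl
    rw [fq_cellx hl.inj hr hv (vt_adm h e) h.2.1 (cel0_T y Dx r v (hc e)) (cel0_J y Dx r v (hc e))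
      (cel0_q y Dx r v (hc e)), cj_mul, cj_epo, h5]
    simp only [hcub]
  have eT : ∑ e : Fin (n + 2) → Bool, sg (ZMod (p ^ κ)) e *
      ∑ w ∈ r.T, ztv Dx y r.phi w (cub (kdq A id q0 q1) r.bs v.g (y.wv w) e * (thq r v q1 (y.wv w))⁻¹) =
      ∑ w ∈ r.T, evs (H1.S3.zeta (Kz Dx) (fun w => r.phi (y.L.t w)) (fun w => r.phi (y.Fr.F w)) [w] w) (θ (y.wv w)).c := by
    rw [Finset.sum_congr rfl fun e _ => Finset.mul_sum _ _ _, Finset.sum_comm]
    refine Finset.sum_congr rfl fun w hw => ?_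
    rw [← tp_sum (Dx.D.f (n + 2)) (ztv Dx y r.phi w) (ka_bot Dx _ _ _ _) fun e => hTe e w hw]
    rw [top_full Dx.D (kdq A id q0 q1) r.bs v.g v.lam hv.g (y.wv w) (ztv Dx y r.phi w) (ka_bot Dx _ _ _ _),
      zeta_kz, hθ]
    rfl
  have eJ : ∑ e : Fin (n + 2) → Bool, sg (ZMod (p ^ κ)) e *
      ∑ j, zj Dx B jb r.phi j (cub (kdq A id q0 q1) r.bs v.g (y.wj j) e * (thq r v q1 (y.wj j))⁻¹) =
      ∑ i, evs (H1.S3.zeta (Kz Dx) (fun i => r.phi (A.a i)) (fun i => r.phi (B.b i))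
        ((List.finRange A.g).filter fun j => B.pl j = B.pl i) i) (θ (y.wj (jb i))).c := by
    have e1 : ∀ e : Fin (n + 2) → Bool,
        ∑ j, zj Dx B jb r.phi j (cub (kdq A id q0 q1) r.bs v.g (y.wj j) e * (thq r v q1 (y.wj j))⁻¹) =
        ∑ i, zta Dx B r.phi i (cub (kdq A id q0 q1) r.bs v.g (y.wj (jb i)) e * (thq r v q1 (y.wj (jb i)))⁻¹) := by
      intro e
      symm
      refine Fintype.sum_of_injective jb hl.inj _ _ ?_ ?_
      · intro j hj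
        rw [zj_no Dx B r.phi fun i hi => hj ⟨i, hi.symm⟩]
        rfl
      · intro i
        rw [zj_jb Dx B hl.inj]
    simp only [e1]
    rw [Finset.sum_congr rfl fun e _ => Finset.mul_sum _ _ _, Finset.sum_comm]
    refine Finset.sum_congr rfl fun i _ => ?_
    rw [← tp_sum (Dx.D.f (n + 2)) (zta Dx B r.phi i) (ka_bot Dx _ _ _ _) fun e => hJe e (jb i)]
    rw [top_full Dx.D (kdq A id q0 q1) r.bs v.g v.lam hv.g (y.wj (jb i)) (zta Dx B r.phi i) (ka_bot Dx _ _ _ _),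
      zeta_kz, hθ]
    rfl
  have eK : ∑ e : Fin (n + 2) → Bool, sg (ZMod (p ^ κ)) e *
      ∑ k, Dx.ch (v.lam k) (cub (kdq A id q0 q1) r.bs v.g (z k (e k)) e * (c k)⁻¹) =
      ∑ k : Fin (n + 2), ∑ b : Bool, (if b then (1 : ZMod (p ^ κ)) else -1) *
        ∑ t : Fin (n + 1) → Lr (Fin (n + 2)) Lm,
          if (∀ i, (t i).i ≠ k) ∧ (t (Fin.last n)).i = k.succAbove 0 then
            (θ (y.wv (if b then q1 k else q0 k))).c (List.ofFn t) * Dx.ch (v.lam k) (Dx.D.rw (List.ofFn t)) else 0 := by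
    rw [sum_face (fun k b e => Dx.ch (v.lam k) (cub (kdq A id q0 q1) r.bs v.g (z k b) e * (c k)⁻¹))]
    refine Finset.sum_congr rfl fun k _ => Finset.sum_congr rfl fun b _ => ?_
    congr 1
    rw [← tp_sum (Dx.D.f (n + 1)) (Dx.ch (v.lam k)) (Dx.ch_add (v.lam k)) (hKe k b),
      face_top Dx (kdq A id q0 q1) r.bs v.g v.lam hv.g (z k b) k b (v.lam k) (tp_memx _ (c k) _ (hKe k b))]
    refine Finset.sum_congr rfl fun t _ => ?_
    refine if_congr Iff.rfl ?_ rfl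
    rw [hdc _ _ (by rw [List.length_ofFn]), hWr, hz']
  rw [Finset.prod_congr rfl fun e _ => h1 e, Finset.prod_mul_distrib, cj_prod, ph_prod]
  congr 2
  have e3 : ∑ e : Fin (n + 2) → Bool, sg (ZMod (p ^ κ)) e * (
        ∑ w ∈ r.T, ztv Dx y r.phi w (cub (kdq A id q0 q1) r.bs v.g (y.wv w) e * (thq r v q1 (y.wv w))⁻¹) +
        ∑ j, zj Dx B jb r.phi j (cub (kdq A id q0 q1) r.bs v.g (y.wj j) e * (thq r v q1 (y.wj j))⁻¹) +
        ∑ k, Dx.ch (v.lam k) (cub (kdq A id q0 q1) r.bs v.g (z k (e k)) e * (c k)⁻¹)) = _ :=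
    (Finset.sum_congr rfl fun e _ => by rw [mul_add, mul_add]).trans
      (Finset.sum_add_distrib.trans (congrArg₂ _ (Finset.sum_add_distrib.trans (congrArg₂ _ eT eJ)) eK))
  rw [e3]
  have e4 : ∀ k : Fin (n + 2), (∑ b : Bool, (if b then (1 : ZMod (p ^ κ)) else -1) *
        ∑ t : Fin (n + 1) → Lr (Fin (n + 2)) Lm,
          if (∀ i, (t i).i ≠ k) ∧ (t (Fin.last n)).i = k.succAbove 0 then
            (θ (y.wv (if b then q1 k else q0 k))).c (List.ofFn t) * Dx.ch (v.lam k) (Dx.D.rw (List.ofFn t)) else 0) -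
      ∑ b : Bool, (if b then (1 : ZMod (p ^ κ)) else -1) *
        ∑ t : Fin (n + 1) → Lr (Fin (n + 2)) Lm, (θ (y.wv (if b then q1 k else q0 k))).c (List.ofFn t) *
          (Dx.lam (⟨k, v.lam k⟩ :: List.ofFn t) - Dx.lam (List.ofFn t ++ [⟨k, v.lam k⟩])) =
      if k = 0 then Dx.kp (v.lam 0) (W (y.wv (q1 0))).c - Dx.kp (v.lam 0) (W (y.wv (q0 0))).c else 0 := by
    intro k
    rw [← Finset.sum_sub_distrib]
    have e5 : ∀ b : Bool, (if b then (1 : ZMod (p ^ κ)) else -1) *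
        (∑ t : Fin (n + 1) → Lr (Fin (n + 2)) Lm,
          if (∀ i, (t i).i ≠ k) ∧ (t (Fin.last n)).i = k.succAbove 0 then
            (θ (y.wv (if b then q1 k else q0 k))).c (List.ofFn t) * Dx.ch (v.lam k) (Dx.D.rw (List.ofFn t)) else 0) -
        (if b then (1 : ZMod (p ^ κ)) else -1) *
        ∑ t : Fin (n + 1) → Lr (Fin (n + 2)) Lm, (θ (y.wv (if b then q1 k else q0 k))).c (List.ofFn t) *
          (Dx.lam (⟨k, v.lam k⟩ :: List.ofFn t) - Dx.lam (List.ofFn t ++ [⟨k, v.lam k⟩])) =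
        (if b then (1 : ZMod (p ^ κ)) else -1) *
          if k = 0 then Dx.kp (v.lam 0) (W (y.wv (if b then q1 k else q0 k))).c else 0 := by
      intro b
      rw [← mul_sub, ← Finset.sum_sub_distrib]
      congr 1
      have e6 : ∀ t : Fin (n + 1) → Lr (Fin (n + 2)) Lm,
          (if (∀ i, (t i).i ≠ k) ∧ (t (Fin.last n)).i = k.succAbove 0 then
            (θ (y.wv (if b then q1 k else q0 k))).c (List.ofFn t) * Dx.ch (v.lam k) (Dx.D.rw (List.ofFn t)) else 0) -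
          (θ (y.wv (if b then q1 k else q0 k))).c (List.ofFn t) *
          (Dx.lam (⟨k, v.lam k⟩ :: List.ofFn t) - Dx.lam (List.ofFn t ++ [⟨k, v.lam k⟩])) =
          if k = 0 then (W (y.wv (if b then q1 k else q0 k))).c (List.ofFn t) * Dx.kw (v.lam 0) (List.ofFn t) else 0 := by
        intro t
        rw [← hdc _ _ (by rw [List.length_ofFn])]
        refine term_k Dx v.lam k _ t fun h0 => ?_
        by_contra hn
        exact h0 (UG.out _ _ fun h7 => hn h7.2.1)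
      rw [Finset.sum_congr rfl fun t _ => e6 t]
      by_cases hk : k = 0
      · simp only [if_pos hk]
        rfl
      · simp only [if_neg hk]
        exact Finset.sum_const_zero
    rw [Finset.sum_congr rfl fun b _ => e5 b, Fintype.sum_bool]
    by_cases hk : k = 0
    · subst hk
      simp only [if_true, Bool.false_eq_true, if_false]
      ring
    · simp only [if_neg hk, mul_zero, add_zero]
  have e8 := Finset.sum_congr (rfl : (Finset.univ : Finset (Fin (n + 2))) = Finset.univ) fun k _ => e4 k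
  rw [Finset.sum_sub_distrib, Finset.sum_ite_eq' Finset.univ, if_pos (Finset.mem_univ _), hW] at e8
  linear_combination e8 + key1

end H57.BG
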