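import Pool.Agent.H57.BG.Alg
import Pool.Agent.H62.BL.Df
import Pool.Agent.H77.S3.Def

/-!
# [H57 BG REL] the identity from the relation (R) (box lemma BLG)

`rel_id`: the relation (R) in the group of all words of length `≤ n + 2` with the relative evaluation. The factors at the fixed primes and at `S0` have vanishing
lower coefficients; the factor of a variable is the commutator with `1 ± X_k`.
-/

set_option autoImplicit false
set_option linter.dupNamespace false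

open scoped NumberField commutatorElement
open IsDedekindDomain
open scoped Classical

noncomputable section

namespace H57.BG

open H63.MA H38.BB H38.BG H57.PC H57.BRA H77.WD H77.WE H62.BL H1.S3 H77.S3

section list

variable {n : ℕ} {Q L R : Type} [Group Q] [MulAction Q L] [CommRing R] [Fintype L]

/-- `evs` of a product of elements over `1` -/
theorem evs_prod (Lw : List (Lr (Fin (n + 2)) L) → R) {V : Type} (x : V → UGr R n Q L) (l : List V)
    (h : ∀ v ∈ l, Et (n + 2) (x v) ∧ (x v).q = 1) :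
    evs Lw (l.map x).prod.c = (l.map fun v => evs Lw (x v).c).sum := by
  obtain ⟨-, -, h3⟩ := et_list x l h
  rw [← evs_list]
  exact evs_congr Lw fun u hu hl => h3 u hu hl

end list

variable {K : Type} [Field K] [NumberField K] {Ω : Type} [Field Ω] [Algebra K Ω]
  {p : ℕ} {ζ : K} {D : RD0 K p ζ} {L : LDs D Ω} {Q : DP K Ω} {A : GS D Ω} {B : SD D Q A}

theorem kd0 {m : ℕ} {I : Type} (i : Fin m → I) {T : Finset (Pl K)} {q0 q1 : Fin m → Pl K}
    (h : ND T q0 q1) (k : Fin m) : kdq A i q0 q1 (Sum.inl (q0 k)) = some (i k, false) := by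
  have h1 : ∃ k', q0 k' = q0 k := ⟨k, rfl⟩
  unfold kdq
  simp only
  rw [dif_pos h1, h.1.1 h1.choose_spec]

theorem kd1 {m : ℕ} {I : Type} (i : Fin m → I) {T : Finset (Pl K)} {q0 q1 : Fin m → Pl K}
    (h : ND T q0 q1) (k : Fin m) : kdq A i q0 q1 (Sum.inl (q1 k)) = some (i k, true) := by
  have h0 : ¬ ∃ k', q0 k' = q1 k := fun ⟨k', hk'⟩ => h.2.2 k' k hk'
  have h1 : ∃ k', q1 k' = q1 k := ⟨k, rfl⟩
  unfold kdq
  simp only
  rw [dif_neg h0, dif_pos h1, h.2.1.1 h1.choose_spec]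

theorem kdn {m : ℕ} {I : Type} (i : Fin m → I) {q0 q1 : Fin m → Pl K} {w : Pl K}
    (h0 : ∀ k, q0 k ≠ w) (h1 : ∀ k, q1 k ≠ w) : kdq A i q0 q1 (Sum.inl w) = none := by
  unfold kdq
  simp only
  rw [dif_neg fun ⟨k, hk⟩ => h0 k hk, dif_neg fun ⟨k, hk⟩ => h1 k hk]

variable {n : ℕ} {Qg Lm R : Type} [Group Qg] [MulAction Qg Lm] [CommRing R] [Fintype Lm]

theorem rel_id {Z : Finset (Pl K)} {l : List (Pl K)} {X : Pl K → FW A} {Y : Fin A.g → FW A}
    (hl : l.Nodup) (hlZ : ∀ v, v ∈ l ↔ v ∈ Z ∨ v ∈ D.S0) (hZ : ∀ v ∈ Z, v ∉ D.S0)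
    (phi : Gal(Ω/K) →* Qg) {T : Finset (Pl K)} (hT : T ⊆ Z) (hph : ∀ v, v ∉ T → phi (L.t v) = 1)
    {q0 q1 : Fin (n + 2) → Pl K} (hq : ∀ k, q0 k ∈ Z ∧ q1 k ∈ Z) (hnd : ND T q0 q1)
    (lam : Fin (n + 2) → Lm) (bs : Pl K ⊕ Fin A.g → Qg) (hbs : ∀ v, bs (Sum.inl v) = phi (L.t v))
    (hbs' : ∀ i, bs (Sum.inr i) = phi (A.a i))
    (θ : FW A →* UGr R n Qg Lm)
    (hθ : θ = rel (WN Qg Lm Set.univ (n + 2)) (kdq A id q0 q1) bs lam)
    (hR : (∀ v, v ∉ Z → θ (FreeGroup.of (Sum.inl v)) = 1) →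
      (l.map fun v => wrd B (fun v => θ (FreeGroup.of (Sum.inl v))) (fun v => θ (X v))
        (fun i => θ (FreeGroup.of (Sum.inr i))) (fun i => θ (Y i)) v).prod = 1)
    (yv : Pl K → Qg) (yb : Fin A.g → Qg)
    (hX : ∀ v ∈ T, Et (n + 2) (θ (X v)) ∧ (θ (X v)).q = yv v)
    (hcom : ∀ v ∈ T, ⁅phi (L.t v), yv v⁆ = 1)
    (hY : ∀ i, Et (n + 2) (θ (Y i)) ∧ (θ (Y i)).q = yb i)
    (hblk : ∀ v ∈ D.S0, H77.S3.blk B.pl v (fun i => phi (A.a i)) yb = 1)
    (hv : ∀ k v, (v = q0 k ∨ v = q1 k) →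
      (θ (X v)).q • (⟨k, lam k⟩ : Lr (Fin (n + 2)) Lm) = ⟨k, lam k⟩ ∧
      ∀ u, u ≠ [] → u.length ≤ n → (∀ b ∈ u, b.i ≠ k) → (θ (X v)).c u = 0)
    {Lw : List (Lr (Fin (n + 2)) Lm) → R} {Kz : Qg → List (Lr (Fin (n + 2)) Lm) → R}
    (hTw : Tw Lw Kz) (hLw : ∀ w, Lw w ≠ 0 → (w.map Lr.i).Nodup) :
    ∑ v ∈ T, evs (zeta Kz (fun v => phi (L.t v)) yv [v] v) (θ (X v)).c +
    ∑ i, evs (zeta Kz (fun i => phi (A.a i)) yb ((List.finRange A.g).filter fun j => B.pl j = B.pl i) i) (θ (Y i)).c +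
    ∑ k : Fin (n + 2), ∑ b : Bool, (if b then (1 : R) else -1) *
      ∑ t : Fin (n + 1) → Lr (Fin (n + 2)) Lm, (θ (X (if b then q1 k else q0 k))).c (List.ofFn t) *
        (Lw (⟨k, lam k⟩ :: List.ofFn t) - Lw (List.ofFn t ++ [⟨k, lam k⟩])) = 0 := by
  have hin : ∀ i, θ (FreeGroup.of (Sum.inr i)) = qi (phi (A.a i)) := by
    intro i
    rw [hθ, rel_of, ← hbs' i]
    rfl
  have hi0 : ∀ k, θ (FreeGroup.of (Sum.inl (q0 k))) = lt ⟨k, lam k⟩ (-1) := by
    intro k
    rw [hθ, rel_of, kd0 id hnd k]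
    rfl
  have hi1 : ∀ k, θ (FreeGroup.of (Sum.inl (q1 k))) = lt ⟨k, lam k⟩ 1 := by
    intro k
    rw [hθ, rel_of, kd1 id hnd k]
    rfl
  have hi : ∀ v, (∀ k, q0 k ≠ v) → (∀ k, q1 k ≠ v) → θ (FreeGroup.of (Sum.inl v)) = qi (phi (L.t v)) := by
    intro v h0 h1
    rw [hθ, rel_of, kdn id h0 h1, ← hbs v]
  have hqi1 : (qi (1 : Qg) : UGr R n Qg Lm) = 1 := rfl
  have hqT : ∀ v ∈ T, (∀ k, q0 k ≠ v) ∧ ∀ k, q1 k ≠ v := fun v hv' =>
    ⟨fun k hk => hnd.1.2 k (by rw [hk]; exact hv'), fun k hk => hnd.2.1.2 k (by rw [hk]; exact hv')⟩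
  obtain ⟨x, hx⟩ : ∃ x : Pl K → UGr R n Qg Lm, x = fun v => wrd B (fun v => θ (FreeGroup.of (Sum.inl v))) (fun v => θ (X v))
      (fun i => θ (FreeGroup.of (Sum.inr i))) (fun i => θ (Y i)) v := ⟨_, rfl⟩
  have h1 : (l.map x).prod = 1 := by
    have h2 := hR (fun v hv' => by
      rw [hi v (fun k hk => hv' (by rw [← hk]; exact (hq k).1)) (fun k hk => hv' (by rw [← hk]; exact (hq k).2)),
        hph v fun h => hv' (hT h), hqi1])
    rw [hx]
    exact h2
  -- the blocks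
  have hS0 : ∀ v ∈ D.S0, (Et (n + 2) (x v) ∧ (x v).q = 1) ∧ evs Lw (x v).c =
      (((List.finRange A.g).filter fun j => B.pl j = v).map fun i =>
        evs (zeta Kz (fun i => phi (A.a i)) yb ((List.finRange A.g).filter fun j => B.pl j = B.pl i) i) (θ (Y i)).c).sum := by
    intro v hv'
    have e1 : x v = wd (fun i => (qi (phi (A.a i)) : UGr R n Qg Lm)) (fun i => θ (Y i))
        ((List.finRange A.g).filter fun j => B.pl j = v) := by
      rw [hx]
      change wrd B _ _ _ _ v = _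
      unfold wrd
      rw [if_pos hv']
      unfold H77.S3.blk H1.S3.wd
      simp only [hin]
    obtain ⟨h2, h3, h4⟩ := evs_wd hTw (fun i => phi (A.a i)) yb (fun i => θ (Y i))
      ((List.finRange A.g).filter fun j => B.pl j = v) ((List.nodup_finRange _).filter _) fun i _ => hY i
    rw [e1]
    refine ⟨⟨h2, ?_⟩, ?_⟩
    · rw [h3]
      exact hblk v hv'
    · rw [h4]
      congr 1
      refine List.map_congr_left fun i hi' => ?_
      have h5 : B.pl i = v := by simpa using (List.mem_filter.1 hi').2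
      rw [h5]
  have hTT : ∀ v ∈ T, (Et (n + 2) (x v) ∧ (x v).q = 1) ∧ evs Lw (x v).c =
      evs (zeta Kz (fun v => phi (L.t v)) yv [v] v) (θ (X v)).c := by
    intro v hv'
    have e1 : x v = wd (fun v => (qi (phi (L.t v)) : UGr R n Qg Lm)) (fun v => θ (X v)) [v] := by
      rw [hx]
      change wrd B _ _ _ _ v = _
      unfold wrd
      rw [if_neg (hZ v (hT hv')), wd_single]
      beta_reduce
      rw [hi v (hqT v hv').1 (hqT v hv').2]
    obtain ⟨h2, h3, h4⟩ := evs_wd hTw (fun v => phi (L.t v)) yv (fun v => θ (X v)) [v] (List.nodup_singleton v)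
      fun w hw => by
        rw [List.mem_singleton] at hw
        rw [hw]
        exact hX v hv'
    rw [e1]
    refine ⟨⟨h2, ?_⟩, ?_⟩
    · rw [h3, wd_single]
      exact hcom v hv'
    · rw [h4, List.map_cons, List.map_nil, List.sum_cons, List.sum_nil, add_zero]
  have hqq : ∀ (k : Fin (n + 2)) (b : Bool), (Et (n + 2) (x (if b then q1 k else q0 k)) ∧
      (x (if b then q1 k else q0 k)).q = 1) ∧ evs Lw (x (if b then q1 k else q0 k)).c =
        (if b then (1 : R) else -1) * ∑ t : Fin (n + 1) → Lr (Fin (n + 2)) Lm,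
          (θ (X (if b then q1 k else q0 k))).c (List.ofFn t) *
          (Lw (⟨k, lam k⟩ :: List.ofFn t) - Lw (List.ofFn t ++ [⟨k, lam k⟩])) := by
    intro k b
    have e1 : x (if b then q1 k else q0 k) =
        ⁅(lt ⟨k, lam k⟩ (if b then (1 : R) else -1) : UGr R n Qg Lm), θ (X (if b then q1 k else q0 k))⁆ := by
      rw [hx]
      change wrd B _ _ _ _ _ = _
      unfold wrd
      cases b
      · simp only [Bool.false_eq_true, if_false]
        rw [if_neg (hZ _ (hq k).1), hi0]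
      · simp only [if_true]
        rw [if_neg (hZ _ (hq k).2), hi1]
    obtain ⟨h2, h3⟩ := hv k (if b then q1 k else q0 k) (by cases b <;> simp)
    rw [e1]
    obtain ⟨h4, h5, -⟩ := et_lt (⟨k, lam k⟩ : Lr (Fin (n + 2)) Lm) (if b then (1 : R) else -1)
      (θ (X (if b then q1 k else q0 k))) h2 h3
    exact ⟨⟨h4, h5⟩, evs_lt Lw _ _ _ h2 h3 hLw⟩
  have hno : ∀ v, v ∉ D.S0 → v ∉ T → (∀ k, q0 k ≠ v) → (∀ k, q1 k ≠ v) → x v = 1 := by
    intro v h2 h3 h4 h5
    rw [hx]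
    change wrd B _ _ _ _ _ = _
    unfold wrd
    rw [if_neg h2]
    beta_reduce
    rw [hi v h4 h5, hph v h3, hqi1, commutatorElement_one_left]
  have hnoq : ∀ v ∈ l, v ∉ D.S0 ∪ T ∪ Finset.univ.image q0 ∪ Finset.univ.image q1 → x v = 1 := by
    intro v _ h2
    simp only [Finset.mem_union, Finset.mem_image, Finset.mem_univ, true_and, not_or, not_exists] at h2
    exact hno v h2.1.1.1 h2.1.1.2 h2.1.2 h2.2
  have hall : ∀ v ∈ l, Et (n + 2) (x v) ∧ (x v).q = 1 := by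
    intro v hvl
    by_cases h2 : v ∈ D.S0 ∪ T ∪ Finset.univ.image q0 ∪ Finset.univ.image q1
    · simp only [Finset.mem_union, Finset.mem_image, Finset.mem_univ, true_and] at h2
      rcases h2 with ((h2 | h2) | ⟨k, rfl⟩) | ⟨k, rfl⟩
      · exact (hS0 v h2).1
      · exact (hTT v h2).1
      · simpa using (hqq k false).1
      · simpa using (hqq k true).1
    · rw [hnoq v hvl h2]
      exact ⟨et_one _, rfl⟩
  have h2 := evs_prod Lw x l hall
  rw [h1] at h2
  have h3 : evs Lw (1 : UGr R n Qg Lm).c = 0 :=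
    Finset.sum_eq_zero fun t _ => by rw [ug_one_c, e1, if_neg (ofFn_ne t), zero_mul]
  rw [h3] at h2
  have h4 : (l.map fun v => evs Lw (x v).c).sum = ∑ v ∈ l.toFinset, evs Lw (x v).c :=
    (List.sum_toFinset _ hl).symm
  have h5 : ∑ v ∈ D.S0 ∪ T ∪ Finset.univ.image q0 ∪ Finset.univ.image q1, evs Lw (x v).c =
      ∑ v ∈ l.toFinset, evs Lw (x v).c := by
    refine Finset.sum_subset (fun v hv' => ?_) fun v hv' hn => ?_
    · simp only [Finset.mem_union, Finset.mem_image, Finset.mem_univ, true_and] at hv'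
      rw [List.mem_toFinset, hlZ]
      rcases hv' with ((h2 | h2) | ⟨k, rfl⟩) | ⟨k, rfl⟩
      · exact Or.inr h2
      · exact Or.inl (hT h2)
      · exact Or.inl (hq k).1
      · exact Or.inl (hq k).2
    · rw [hnoq v (List.mem_toFinset.1 hv') hn, h3]
  have hd1 : Disjoint D.S0 T := Finset.disjoint_left.2 fun v h6 h7 => hZ v (hT h7) h6
  have hd2 : Disjoint (D.S0 ∪ T) (Finset.univ.image q0) := Finset.disjoint_left.2 fun v h6 h7 => by
    obtain ⟨k, -, rfl⟩ := Finset.mem_image.1 h7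
    rcases Finset.mem_union.1 h6 with h6 | h6
    · exact hZ _ (hq k).1 h6
    · exact hnd.1.2 k h6
  have hd3 : Disjoint (D.S0 ∪ T ∪ Finset.univ.image q0) (Finset.univ.image q1) := Finset.disjoint_left.2 fun v h6 h7 => by
    obtain ⟨k, -, rfl⟩ := Finset.mem_image.1 h7
    rcases Finset.mem_union.1 h6 with h6 | h6
    · rcases Finset.mem_union.1 h6 with h6 | h6
      · exact hZ _ (hq k).2 h6
      · exact hnd.2.1.2 k h6
    · obtain ⟨j, -, h8⟩ := Finset.mem_image.1 h6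
      exact hnd.2.2 j k h8
  rw [Finset.sum_union hd3, Finset.sum_union hd2, Finset.sum_union hd1,
    Finset.sum_image (fun a _ b _ h => hnd.1.1 h), Finset.sum_image (fun a _ b _ h => hnd.2.1.1 h)] at h5
  rw [h4, ← h5] at h2
  have h6 : ∑ v ∈ D.S0, evs Lw (x v).c = ∑ i, evs (zeta Kz (fun i => phi (A.a i)) yb
      ((List.finRange A.g).filter fun j => B.pl j = B.pl i) i) (θ (Y i)).c := by
    rw [← Finset.sum_fiberwise_of_maps_to (s := Finset.univ) (t := D.S0) (g := B.pl) fun i _ => B.mem i]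
    refine Finset.sum_congr rfl fun v hv' => ?_
    rw [(hS0 v hv').2, ← List.sum_toFinset _ ((List.nodup_finRange _).filter _), List.toFinset_filter,
      List.toFinset_finRange]
    refine Finset.sum_congr ?_ fun _ _ => rfl
    ext i
    simp
  have h7 : ∑ v ∈ T, evs Lw (x v).c = ∑ v ∈ T, evs (zeta Kz (fun v => phi (L.t v)) yv [v] v) (θ (X v)).c :=
    Finset.sum_congr rfl fun v hv' => (hTT v hv').2
  rw [h6, h7] at h2
  rw [h2, add_comm (∑ v ∈ T, _) (∑ i, _), add_assoc (_ + _), ← Finset.sum_add_distrib]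
  congr 1
  refine Finset.sum_congr rfl fun k _ => ?_
  rw [Fintype.sum_bool, ← (hqq k true).2, ← (hqq k false).2, add_comm]
  simp

end H57.BG
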