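import Pool.Agent.H42.WM.WrdB

/-!
# [H57 BG TOP] elements of the groups of words with vanishing lower coefficients

`Et d x`: the coefficients of the nonempty words of length `< d` vanish. On such elements the coefficients of the words of length `≤ d` form a crossed homomorphism.
* `et_mul_c`, `et_mul`, `et_inv_c`, `et_inv`, `et_qi`: products, inverses. `et_com`: the commutator `[z, x]`, `z ∈ Q`. `et_sub`: `A = w B`, `A`, `B` agree in length `< d`.
* `et_lt`: the commutator `[1 + s a, x]`. `et_list`: products of lists.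
-/

set_option autoImplicit false

open scoped Classical commutatorElement

noncomputable section

namespace H57.BG

open H62.BL

section gen

variable {Q α R : Type} [Group Q] [MulAction Q α] [CommRing R] {W : WSet Q α}

/-- the lower coefficients vanish -/
def Et (d : ℕ) (x : UG Q α R W) : Prop := ∀ u, u ≠ [] → u.length < d → x.c u = 0

theorem et_ne {u : List α} (hu : u ≠ []) (i : ℕ) (h1 : 1 ≤ i) : u.take i ≠ [] := by
  intro h
  have h2 := congrArg List.length h
  rw [List.length_take, List.length_nil] at h2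
  have : 0 < u.length := List.length_pos_iff.2 hu
  omega

theorem cv_ends {y f : List α → R} {u : List α} (hu : u ≠ []) (hy : y [] = 1) (hf : f [] = 1)
    (h : ∀ i, 1 ≤ i → i < u.length → y (u.take i) * f (u.drop i) = 0) : cv y f u = y u + f u := by
  have hlen : 0 < u.length := List.length_pos_iff.2 hu
  obtain ⟨m, hm⟩ : ∃ m, u.length = m + 1 := ⟨u.length - 1, by omega⟩
  rw [cv_eq, Finset.sum_range_succ, hm, Finset.sum_range_succ', List.take_zero, List.drop_zero, hy, one_mul,
    ← hm, List.take_length, List.drop_length, hf, mul_one, Finset.sum_eq_zero, zero_add, add_comm]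
  intro i hi
  rw [Finset.mem_range] at hi
  exact h (i + 1) (by omega) (by omega)

theorem et_mul_c {d : ℕ} {x : UG Q α R W} (y : UG Q α R W) (hx : Et d x) (u : List α) (hu : u ≠ [])
    (hl : u.length ≤ d) : (x * y).c u = x.c u + qa x.q y.c u := by
  by_cases hW : u ∈ W.s
  · rw [ug_mul_c, tr_of hW]
    refine cv_ends hu x.one ?_ fun i h1 h2 => ?_
    · rw [qa, List.map_nil]
      exact y.one
    · rw [hx (u.take i) (et_ne hu i h1) (by rw [List.length_take]; omega), zero_mul]
  · rw [(x * y).out u hW, x.out u hW]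
    have h1 : qa x.q y.c u = 0 := y.out _ fun h => hW ((W.act x.q⁻¹ u).1 h)
    rw [h1, add_zero]

theorem et_mul {d : ℕ} {x y : UG Q α R W} (hx : Et d x) (hy : Et d y) : Et d (x * y) := by
  intro u hu hl
  rw [et_mul_c y hx u hu hl.le, hx u hu hl, zero_add]
  exact hy _ (by simpa using hu) (by rw [List.length_map]; exact hl)

theorem et_one (d : ℕ) : Et d (1 : UG Q α R W) := fun u hu _ => by
  rw [ug_one_c, e1, if_neg hu]

theorem et_qi (d : ℕ) (z : Q) : Et d (qi z : UG Q α R W) := fun u hu _ => by
  change e1 u = 0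
  rw [e1, if_neg hu]

theorem et_qa_inv {z : Q} (c : List α → R) (u : List α) :
    qa z c (u.map fun a => z • a) = c u := by
  rw [qa, List.map_map]
  congr 1
  conv_rhs => rw [← List.map_id u]
  refine List.map_congr_left fun a _ => ?_
  rw [Function.comp_apply, inv_smul_smul, id]

theorem et_inv_c {d : ℕ} {x : UG Q α R W} (hx : Et d x) (u : List α) (hu : u ≠ [])
    (hl : u.length ≤ d) : x⁻¹.c u = -qa x.q⁻¹ x.c u := by
  have h1 := et_mul_c x⁻¹ hx (u.map fun a => x.q • a) (by simpa using hu) (by rw [List.length_map]; exact hl)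
  rw [mul_inv_cancel, ug_one_c, e1, if_neg (by simpa using hu), et_qa_inv] at h1
  rw [qa, inv_inv]
  exact eq_neg_of_add_eq_zero_right h1.symm

theorem et_inv {d : ℕ} {x : UG Q α R W} (hx : Et d x) : Et d x⁻¹ := by
  intro u hu hl
  rw [et_inv_c hx u hu hl.le, qa, hx _ (by simpa using hu) (by rw [List.length_map]; exact hl), neg_zero]

theorem ug_inv_q (x : UG Q α R W) : x⁻¹.q = x.q⁻¹ := by
  have h1 : (x * x⁻¹).q = 1 := by rw [mul_inv_cancel]; rfl
  rw [ug_mul_q] at h1
  exact (inv_eq_of_mul_eq_one_right h1).symm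

theorem qi_inv (z : Q) : (qi z : UG Q α R W)⁻¹ = qi z⁻¹ := (map_inv (qh : Q →* UG Q α R W) z).symm

/-- the commutator with an element of `Q` -/
theorem et_com {d : ℕ} (z : Q) {x : UG Q α R W} (hx : Et d x) :
    Et d ⁅(qi z : UG Q α R W), x⁆ ∧ (⁅(qi z : UG Q α R W), x⁆).q = ⁅z, x.q⁆ ∧
      ∀ u, u ≠ [] → u.length ≤ d →
        (⁅(qi z : UG Q α R W), x⁆).c u = qa z x.c u - qa ⁅z, x.q⁆ x.c u := by
  have hz : Et d (qi z : UG Q α R W) := et_qi d z
  have hzx : Et d ((qi z : UG Q α R W) * x) := et_mul hz hx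
  have hzi : Et d ((qi z : UG Q α R W)⁻¹) := et_inv hz
  have hzxz : Et d ((qi z : UG Q α R W) * x * (qi z)⁻¹) := et_mul hzx hzi
  have h0 : ∀ (z' : Q) (u : List α), u ≠ [] → (qi z' : UG Q α R W).c u = 0 := fun z' u hu => by
    change e1 u = 0
    rw [e1, if_neg hu]
  refine ⟨?_, ?_, fun u hu hl => ?_⟩
  · rw [commutatorElement_def]
    exact et_mul hzxz (et_inv hx)
  · rw [commutatorElement_def, ug_mul_q, ug_mul_q, ug_mul_q, ug_inv_q, ug_inv_q, commutatorElement_def]
    rfl
  · have hm : ∀ (z' : Q), (u.map fun a => z' • a) ≠ [] := fun z' => by simpa using hu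
    have hq1 : ((qi z : UG Q α R W) * x * (qi z)⁻¹).q = z * x.q * z⁻¹ := by
      rw [ug_mul_q, ug_mul_q, ug_inv_q]
      rfl
    have h1 : ((qi z : UG Q α R W) * x).c u = qa z x.c u := by
      rw [et_mul_c x hz u hu hl, h0 z u hu, zero_add]
      rfl
    have h2 : ((qi z : UG Q α R W) * x * (qi z)⁻¹).c u = qa z x.c u := by
      have h4 : qa ((qi z : UG Q α R W) * x).q (qi z⁻¹ : UG Q α R W).c u = 0 := by
        rw [qa]
        exact h0 _ _ (hm _)
      rw [et_mul_c _ hzx u hu hl, h1, qi_inv, h4, add_zero]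
    rw [commutatorElement_def, et_mul_c _ hzxz u hu hl, h2, hq1]
    have h3 : qa (z * x.q * z⁻¹) (x⁻¹).c u = -qa ⁅z, x.q⁆ x.c u := by
      rw [qa, et_inv_c hx _ (hm _) (by rw [List.length_map]; exact hl), qa, qa, List.map_map]
      congr 2
      refine List.map_congr_left fun a _ => ?_
      rw [Function.comp_apply, ← mul_smul, commutatorElement_def]
      congr 1
      group
    rw [h3, sub_eq_add_neg]

/-- the quotient of two elements which agree in length `< d` -/
theorem et_sub {d : ℕ} {w A B : UG Q α R W} (hA : A = w * B) (hw : w.q = 1)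
    (h : ∀ u, u.length < d → A.c u = B.c u) :
    Et d w ∧ ∀ u, u ≠ [] → u.length ≤ d → w.c u = A.c u - B.c u := by
  have key : ∀ m, m < d → ∀ u, u ≠ [] → u.length = m → w.c u = 0 := by
    intro m
    induction m using Nat.strong_induction_on with
    | _ m ih =>
      intro hm u hu hl
      have h1 := h u (by omega)
      by_cases hW : u ∈ W.s
      · rw [hA, ug_mul_c, tr_of hW, hw, qa_one, cv_ends hu w.one B.one fun i h2 h3 => by
          rw [ih i (by omega) (by omega) _ (et_ne hu i h2) (by rw [List.length_take]; omega), zero_mul]] at h1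
        exact left_eq_add.1 (by rw [add_comm]; exact h1.symm)
      · exact w.out u hW
  have hE : Et d w := fun u hu hl => key _ hl u hu rfl
  refine ⟨hE, fun u hu hl => ?_⟩
  rw [hA, et_mul_c B hE u hu hl, hw, qa_one, add_sub_cancel_right]

theorem et_list {J : Type} {d : ℕ} (w : J → UG Q α R W) (l : List J) (h : ∀ j ∈ l, Et d (w j) ∧ (w j).q = 1) :
    Et d (l.map w).prod ∧ (l.map w).prod.q = 1 ∧ ∀ u, u ≠ [] → u.length ≤ d →
      (l.map w).prod.c u = (l.map fun j => (w j).c u).sum := by
  induction l with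
  | nil =>
    refine ⟨et_one d, rfl, fun u hu _ => ?_⟩
    rw [List.map_nil, List.prod_nil, List.map_nil, List.sum_nil, ug_one_c, e1, if_neg hu]
  | cons j l ih =>
    obtain ⟨h1, h2, h3⟩ := ih fun i hi => h i (List.mem_cons_of_mem _ hi)
    obtain ⟨h4, h5⟩ := h j List.mem_cons_self
    rw [List.map_cons, List.prod_cons]
    refine ⟨et_mul h4 h1, by rw [ug_mul_q, h5, h2, one_mul], fun u hu hl => ?_⟩
    rw [et_mul_c _ h4 u hu hl, h5, qa_one, h3 u hu hl, List.map_cons, List.sum_cons]

end gen

section lt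

variable {Q L R : Type} [Group Q] [MulAction Q L] [CommRing R] {n m : ℕ}

/-- the commutator of `1 + s a` and `x` -/
theorem et_lt (a : Lr (Fin m) L) (s : R) (x : UG Q (Lr (Fin m) L) R (WN Q L Set.univ (n + 2)))
    (hx : x.q • a = a) (h : ∀ u, u ≠ [] → u.length ≤ n → (∀ b ∈ u, b.i ≠ a.i) → x.c u = 0) :
    Et (n + 2) ⁅(lt a s : UG Q (Lr (Fin m) L) R (WN Q L Set.univ (n + 2))), x⁆ ∧
      (⁅(lt a s : UG Q (Lr (Fin m) L) R (WN Q L Set.univ (n + 2))), x⁆).q = 1 ∧
      ∀ u ∈ (WN Q L (Set.univ : Set (Fin m)) (n + 2)).s, u ≠ [] →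
        (⁅(lt a s : UG Q (Lr (Fin m) L) R (WN Q L Set.univ (n + 2))), x⁆).c u =
          s * (cv (el a) x.c u - cv x.c (el a) u) := by
  obtain ⟨t, ht⟩ : ∃ t : UG Q (Lr (Fin m) L) R (WN Q L Set.univ (n + 2)), t = lt a s := ⟨_, rfl⟩
  have htq : t.q = 1 := by rw [ht]; rfl
  have htc : t.c = tr (WN Q L Set.univ (n + 2)) (e1 + s • el a) := by rw [ht]; rfl
  have hW1 : [a] ∈ (WN Q L (Set.univ : Set (Fin m)) (n + 2)).s := ⟨by simp, by simp, by simp⟩
  rw [← ht]
  have hq : (⁅t, x⁆).q = 1 := by
    rw [commutatorElement_def, ug_mul_q, ug_mul_q, ug_mul_q, ug_inv_q, ug_inv_q, htq]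
    group
  have hAB : t * x = ⁅t, x⁆ * (x * t) := by
    rw [commutatorElement_def]
    group
  have hA : ∀ u ∈ (WN Q L (Set.univ : Set (Fin m)) (n + 2)).s, (t * x).c u = x.c u + s * cv (el a) x.c u := by
    intro u hu
    rw [ug_mul_c, htq, qa_one, htc, tr_cv_left, tr_of hu]
    have h1 : cv (e1 + s • el a) x.c u = cv (fun v => e1 v + s * el a v) x.c u := rfl
    rw [h1, cv_add_left, cv_one_left, cv_smul_left]
  have hB : ∀ u ∈ (WN Q L (Set.univ : Set (Fin m)) (n + 2)).s, (x * t).c u = x.c u + s * cv x.c (el a) u := by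
    intro u hu
    have h2 : qa x.q t.c = tr (WN Q L Set.univ (n + 2)) (e1 + s • el a) := by
      rw [htc, ← tr_qa]
      congr 1
      funext v
      change e1 (v.map fun b => x.q⁻¹ • b) + s * el a (v.map fun b => x.q⁻¹ • b) = e1 v + s * el a v
      have h3 : (e1 (v.map fun b => x.q⁻¹ • b) : R) = e1 v := congrFun (qa_e1 x.q) v
      have h4 : (el a (v.map fun b => x.q⁻¹ • b) : R) = el a v := by
        unfold el
        congr 1
        rw [eq_iff_iff]
        constructor
        · intro h5
          cases v with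
          | nil => simp at h5
          | cons b v =>
            rw [List.map_cons, List.cons.injEq, List.map_eq_nil_iff] at h5
            rw [h5.2, List.cons.injEq]
            refine ⟨?_, rfl⟩
            rw [← hx, ← h5.1, smul_inv_smul]
        · rintro rfl
          rw [List.map_cons, List.map_nil]
          congr 1
          rw [inv_smul_eq_iff, hx]
      rw [h3, h4]
    rw [ug_mul_c, h2, tr_cv_right, tr_of hu]
    have h1 : cv x.c (e1 + s • el a) u = cv x.c (fun v => e1 v + s * el a v) u := rfl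
    rw [h1, cv_add_right, cv_one_right, cv_smul_right]
  have hcv : ∀ u ∈ (WN Q L (Set.univ : Set (Fin m)) (n + 2)).s, u.length < n + 2 →
      cv (el a) x.c u = cv x.c (el a) u := by
    intro u hu hl
    have hfr : ∀ u1 u2 : List (Lr (Fin m) L), u1 ++ u2 = u → ∀ w w', (u1 = [a] ∧ w = u2 ∨ u2 = [a] ∧ w = u1) →
        w' = w → w ≠ [] → x.c w' = 0 := by
      rintro u1 u2 h12 w w' hw rfl hne
      have hnd : ((u1 ++ u2).map Lr.i).Nodup := by rw [h12]; exact hu.2.1
      rw [List.map_append, List.nodup_append] at hnd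
      have hlen : u1.length + u2.length < n + 2 := by rw [← List.length_append, h12]; exact hl
      rcases hw with ⟨h1, rfl⟩ | ⟨h1, rfl⟩
      · refine h _ hne (by rw [h1, List.length_singleton] at hlen; omega) fun b hb hba => ?_
        exact hnd.2.2 a.i (by rw [h1]; simp) b.i (List.mem_map.2 ⟨b, hb, rfl⟩) hba.symm
      · refine h _ hne (by rw [h1, List.length_singleton] at hlen; omega) fun b hb hba => ?_
        exact hnd.2.2 b.i (List.mem_map.2 ⟨b, hb, rfl⟩) a.i (by rw [h1]; simp) hba
    rcases Nat.lt_or_ge 1 u.length with h2 | h2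
    · rw [cv_eq, cv_eq, Finset.sum_eq_zero, Finset.sum_eq_zero]
      · intro i _
        by_cases h3 : u.drop i = [a]
        · rw [hfr _ _ (List.take_append_drop i u) (u.take i) (u.take i) (Or.inr ⟨h3, rfl⟩) rfl, zero_mul]
          intro h4
          have h5 := congrArg List.length (List.take_append_drop i u)
          rw [h3, h4, List.nil_append, List.length_singleton] at h5
          omega
        · have h4 : (el a (u.drop i) : R) = 0 := if_neg h3
          rw [h4, mul_zero]
      · intro i _
        by_cases h3 : u.take i = [a]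
        · rw [hfr _ _ (List.take_append_drop i u) (u.drop i) (u.drop i) (Or.inl ⟨h3, rfl⟩) rfl, mul_zero]
          intro h4
          have h5 := congrArg List.length (List.take_append_drop i u)
          rw [h3, h4, List.append_nil, List.length_singleton] at h5
          omega
        · have h4 : (el a (u.take i) : R) = 0 := if_neg h3
          rw [h4, zero_mul]
    · rcases u with _ | ⟨b, u⟩
      · rw [cv_nil, cv_nil, mul_comm]
      · rw [List.length_cons] at h2
        obtain rfl : u = [] := List.length_eq_zero_iff.1 (by omega)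
        rw [cv_cons, cv_cons, cv_nil, cv_nil, x.one]
        have h3 : (el a [] : R) = 0 := if_neg (by simp)
        rw [h3]
        ring
  obtain ⟨h1, h2⟩ := et_sub (d := n + 2) hAB hq fun u hl => by
    by_cases hu : u ∈ (WN Q L (Set.univ : Set (Fin m)) (n + 2)).s
    · rw [hA u hu, hB u hu, hcv u hu hl]
    · rw [(t * x).out u hu, (x * t).out u hu]
  refine ⟨h1, hq, fun u hu hne => ?_⟩
  rw [h2 u hne hu.1, hA u hu, hB u hu]
  ring

end lt

end H57.BG
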